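import Mathlib

/-!
# The regulator of the regulator of a Butler group

We construct a Butler group `G` of rank six with `R(R(G)) ≠ R(G)`.

Let `a₁, a₂, b₁, b₂, x, y` be a basis of `ℚ ^ 6` and put `k = (a₁ + a₂) / 2`, `w = (b₁ + b₂) / 2`,
`m = k + w`.  The group `G` is divisible by all primes except `2, 3, 5, 7, 11, 13, 17`; at `2` it is
the lattice spanned by `a₁, k, b₁, w, x, y`; at the other six primes it is the same lattice plus the
divisible subspaces `⟨a₁, b₁⟩`, `⟨a₂, b₂⟩`, `⟨a₁, a₂, y⟩`, `⟨a₁, a₂, w - y⟩`, `⟨b₁, b₂, x⟩`,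
`⟨b₁, b₂, k - x⟩` respectively.  A regulating subgroup is generated, at `2`, by
`a₁, a₂, b₁, b₂, y + ψ, w - y + ψ', x + φ, k - x + φ'` with `ψ, ψ'` in `⟨a₁, k⟩` and `φ, φ'` in
`⟨b₁, w⟩`.  It always contains `m`, and the regulator is, at `2`, the lattice spanned by
`a₁, a₂, b₁, b₂, m, 2 x, 2 y`.  The only regulating subgroup of the latter is, at `2`, the lattice
spanned by `a₁, a₂, b₁, b₂, 2 x, 2 y`, which does not contain `m`.

Coordinates: the vector `v` stands for `(v 0 a₁ + v 1 a₂ + v 2 b₁ + v 3 b₂) / 2 + v 4 x + v 5 y`.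
-/

namespace Pool.Agent.Results.MP_9f65ab_al.RegulatorDisproof

/-! ### Definitions -/

/-- A height sequence assigns to every prime a value in `ℕ ∪ {∞}`. -/
def HeightSeq : Type := Nat.Primes → ℕ∞

/-- The usual order of types, on representatives: `χ ≤ χ'` means that `χ' p < χ p` happens for only
finitely many primes `p`, and that `χ p` is finite at each of them. -/
instance : Preorder HeightSeq where
  le χ χ' := {p | χ' p < χ p}.Finite ∧ ∀ p, χ' p < χ p → χ p ≠ ⊤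
  le_refl χ := by
    refine ⟨?_, fun p hp => absurd hp (lt_irrefl _)⟩
    simp
  le_trans χ χ' χ'' h h' := by
    refine ⟨(h.1.union h'.1).subset ?_, ?_⟩
    · intro p hp
      simp only [Set.mem_ofPred_eq, Set.mem_union] at *
      by_cases hc : χ' p < χ p
      · exact Or.inl hc
      · exact Or.inr (lt_of_lt_of_le hp (not_lt.mp hc))
    · intro p hp
      by_cases hc : χ' p < χ p
      · exact h.2 p hc
      · have h1 := h'.2 p (lt_of_lt_of_le hp (not_lt.mp hc))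
        intro ht
        exact h1 (top_le_iff.mp (ht ▸ not_lt.mp hc))

/-- A type is an equivalence class of height sequences (see `heightSeq_equiv_iff`), with the
induced partial order. -/
abbrev GType : Type := Antisymmetrization HeightSeq (· ≤ ·)

section
variable {V : Type*} [AddCommGroup V]

/-- The `p`-height of `x` in the subgroup `G`: the supremum of all `n` with `x ∈ p ^ n G`. -/
noncomputable def height (G : AddSubgroup V) (p : ℕ) (x : V) : ℕ∞ :=
  ⨆ (n : ℕ) (_ : ∃ y ∈ G, p ^ n • y = x), (n : ℕ∞)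

/-- The height sequence of `x` in `G`. -/
noncomputable def heightSeq (G : AddSubgroup V) (x : V) : HeightSeq :=
  fun p => height G p x

/-- The type of `x` in `G`: the class of its height sequence. -/
noncomputable def typeOf (G : AddSubgroup V) (x : V) : GType :=
  toAntisymmetrization (· ≤ ·) (heightSeq G x)

theorem natCast_le_height {G : AddSubgroup V} {p : ℕ} {x : V} (hx : x ∈ G) (n : ℕ) :
    (n : ℕ∞) ≤ height G p x ↔ ∃ y ∈ G, p ^ n • y = x := by
  constructor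
  · intro h
    rcases Nat.eq_zero_or_pos n with hn | hn
    · subst hn
      exact ⟨x, hx, by simp⟩
    · have h1 : ((n - 1 : ℕ) : ℕ∞) < height G p x := by
        refine lt_of_lt_of_le ?_ h
        exact_mod_cast (by omega : n - 1 < n)
      rw [height] at h1
      simp only [lt_iSup_iff] at h1
      obtain ⟨m, ⟨y, hy, hyx⟩, hm⟩ := h1
      have hm' : n - 1 < m := by exact_mod_cast hm
      refine ⟨p ^ (m - n) • y, G.nsmul_mem hy _, ?_⟩
      rw [← mul_nsmul', ← pow_add, show n + (m - n) = m by omega, hyx]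
  · intro h
    exact le_iSup₂_of_le n h le_rfl

theorem min_height_le {G : AddSubgroup V} {p : ℕ} {x y : V} (hx : x ∈ G) (hy : y ∈ G) :
    min (height G p x) (height G p y) ≤ height G p (x + y) := by
  rw [← ENat.forall_natCast_le_iff_le]
  intro n hn
  rw [le_min_iff, natCast_le_height hx, natCast_le_height hy] at hn
  obtain ⟨⟨a, ha, hax⟩, b, hb, hby⟩ := hn
  rw [natCast_le_height (G.add_mem hx hy)]
  exact ⟨a + b, G.add_mem ha hb, by rw [nsmul_add, hax, hby]⟩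

theorem height_zero (G : AddSubgroup V) (p : ℕ) : height G p 0 = ⊤ := by
  rw [← top_le_iff, ← ENat.forall_natCast_le_iff_le]
  intro n _
  rw [natCast_le_height G.zero_mem]
  exact ⟨0, G.zero_mem, by simp⟩

theorem height_neg_le {G : AddSubgroup V} {p : ℕ} {x : V} (hx : x ∈ G) :
    height G p x ≤ height G p (-x) := by
  rw [← ENat.forall_natCast_le_iff_le]
  intro n hn
  rw [natCast_le_height hx] at hn
  obtain ⟨a, ha, hax⟩ := hn
  rw [natCast_le_height (G.neg_mem hx)]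
  exact ⟨-a, G.neg_mem ha, by rw [smul_neg, hax]⟩

/-- `G(τ)`, the subgroup of all elements of `G` of type at least `τ`. -/
def atLeast (G : AddSubgroup V) (τ : GType) : AddSubgroup V where
  carrier := {x | x ∈ G ∧ τ ≤ typeOf G x}
  zero_mem' := by
    refine ⟨G.zero_mem, ?_⟩
    induction τ using Quotient.inductionOn with
    | h χ =>
      have hz : heightSeq G (0 : V) = fun _ => ⊤ := funext fun p => height_zero G p
      change toAntisymmetrization (· ≤ ·) χ ≤ toAntisymmetrization (· ≤ ·) (heightSeq G 0)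
      rw [toAntisymmetrization_le_toAntisymmetrization_iff, hz]
      constructor
      · convert Set.finite_empty
        ext p
        simp
      · intro p hp
        simp at hp
  add_mem' := by
    rintro x y ⟨hx, hx'⟩ ⟨hy, hy'⟩
    refine ⟨G.add_mem hx hy, ?_⟩
    induction τ using Quotient.inductionOn with
    | h χ =>
      change toAntisymmetrization (· ≤ ·) χ ≤ toAntisymmetrization (· ≤ ·) (heightSeq G _) at hx' hy' ⊢
      rw [toAntisymmetrization_le_toAntisymmetrization_iff] at hx' hy' ⊢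
      constructor
      · refine (hx'.1.union hy'.1).subset ?_
        intro p hp
        have hp' : height G p (x + y) < χ p := hp
        rcases min_lt_iff.mp (lt_of_le_of_lt (min_height_le hx hy) hp') with h | h
        · exact Or.inl h
        · exact Or.inr h
      · intro p hp
        have hp' : height G p (x + y) < χ p := hp
        rcases min_lt_iff.mp (lt_of_le_of_lt (min_height_le hx hy) hp') with h | h
        · exact hx'.2 p h
        · exact hy'.2 p h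
  neg_mem' := by
    rintro x ⟨hx, hx'⟩
    refine ⟨G.neg_mem hx, ?_⟩
    induction τ using Quotient.inductionOn with
    | h χ =>
      change toAntisymmetrization (· ≤ ·) χ ≤ toAntisymmetrization (· ≤ ·) (heightSeq G _) at hx' ⊢
      rw [toAntisymmetrization_le_toAntisymmetrization_iff] at hx' ⊢
      constructor
      · refine hx'.1.subset ?_
        intro p hp
        exact lt_of_le_of_lt (height_neg_le hx) hp
      · intro p hp
        exact hx'.2 p (lt_of_le_of_lt (height_neg_le hx) hp)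

/-- `G^*(τ)`, the sum of all `G(σ)` with `σ > τ`. -/
def star (G : AddSubgroup V) (τ : GType) : AddSubgroup V :=
  ⨆ σ : {σ : GType // τ < σ}, atLeast G σ

/-- `G^#(τ)`, the purification of `G^*(τ)` in `G`. -/
def sharp (G : AddSubgroup V) (τ : GType) : AddSubgroup V where
  carrier := {x | x ∈ G ∧ ∃ n : ℕ, n ≠ 0 ∧ n • x ∈ star G τ}
  zero_mem' := ⟨G.zero_mem, 1, one_ne_zero, by simp⟩
  add_mem' := by
    rintro x y ⟨hx, m, hm, hm'⟩ ⟨hy, n, hn, hn'⟩
    refine ⟨G.add_mem hx hy, m * n, mul_ne_zero hm hn, ?_⟩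
    rw [nsmul_add, mul_nsmul' x m n, mul_comm m n, mul_nsmul' y n m]
    rw [← mul_nsmul', mul_comm m n, mul_nsmul' x n m]
    exact (star G τ).add_mem ((star G τ).nsmul_mem hm' n)
      (by rw [← mul_nsmul', mul_comm, mul_nsmul']; exact (star G τ).nsmul_mem hn' m)
  neg_mem' := by
    rintro x ⟨hx, m, hm, hm'⟩
    refine ⟨G.neg_mem hx, m, hm, ?_⟩
    rw [smul_neg]
    exact (star G τ).neg_mem hm'

/-- `A` is a rank-one group of type `τ`: it is nonzero, any two of its elements are linearly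
dependent over `ℤ`, and every nonzero element has type `τ` in `A`. -/
def IsRankOneOfType (A : AddSubgroup V) (τ : GType) : Prop :=
  A ≠ ⊥ ∧ (∀ x ∈ A, ∀ y ∈ A, ∃ a b : ℤ, (a ≠ 0 ∨ b ≠ 0) ∧ a • x = b • y) ∧
    ∀ x ∈ A, x ≠ 0 → typeOf A x = τ

/-- `C` is homogeneous completely decomposable of type `τ` (and of finite rank): it is the direct
sum of finitely many rank-one groups of type `τ`. -/
def IsHomogeneousCD (C : AddSubgroup V) (τ : GType) : Prop :=
  ∃ (n : ℕ) (A : Fin n → AddSubgroup V),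
    (∀ i, IsRankOneOfType (A i) τ) ∧ iSupIndep A ∧ ⨆ i, A i = C

/-- `U` is a regulating subgroup of `G`: it is the sum `∑_τ C τ`, over all types `τ`, where
`G(τ) = C τ ⊕ G^#(τ)` and `C τ` is homogeneous completely decomposable of type `τ`. -/
def IsRegulating (G U : AddSubgroup V) : Prop :=
  ∃ C : GType → AddSubgroup V,
    (∀ τ, IsHomogeneousCD (C τ) τ ∧ C τ ⊓ sharp G τ = ⊥ ∧ C τ ⊔ sharp G τ = atLeast G τ) ∧
      U = ⨆ τ, C τ

/-- The regulator of `G`: the intersection of all regulating subgroups of `G`. -/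
def regulator (G : AddSubgroup V) : AddSubgroup V :=
  sInf {U | IsRegulating G U}

/-- `G` is a Butler group: it is isomorphic (through `f`) to a pure subgroup of a completely
decomposable group `A 1 ⊕ ... ⊕ A n` of finite rank, the `A i` being nonzero subgroups of `ℚ`. -/
def IsButler (G : AddSubgroup V) : Prop :=
  ∃ (n : ℕ) (A : Fin n → AddSubgroup ℚ) (f : G →+ (Fin n → ℚ)),
    (∀ i, A i ≠ ⊥) ∧ Function.Injective f ∧ (∀ g i, f g i ∈ A i) ∧
      ∀ (k : ℤ) (x : Fin n → ℚ), k ≠ 0 → (∀ i, x i ∈ A i) → k • x ∈ Set.range f →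
        x ∈ Set.range f

end

/-! ### Sanity check for the order on height sequences -/

/-- Two height sequences define the same type iff they differ at only finitely many primes, and
both are finite at each of those. -/
theorem heightSeq_equiv_iff (χ χ' : HeightSeq) :
    toAntisymmetrization (· ≤ ·) χ = toAntisymmetrization (· ≤ ·) χ' ↔
      {p | χ p ≠ χ' p}.Finite ∧ ∀ p, χ p ≠ χ' p → χ p ≠ ⊤ ∧ χ' p ≠ ⊤ := by
  have key : toAntisymmetrization (· ≤ ·) χ = toAntisymmetrization (· ≤ ·) χ' ↔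
      χ ≤ χ' ∧ χ' ≤ χ := by
    constructor
    · intro h
      exact ⟨toAntisymmetrization_le_toAntisymmetrization_iff.mp h.le,
        toAntisymmetrization_le_toAntisymmetrization_iff.mp h.ge⟩
    · rintro ⟨h1, h2⟩
      exact le_antisymm (toAntisymmetrization_le_toAntisymmetrization_iff.mpr h1)
        (toAntisymmetrization_le_toAntisymmetrization_iff.mpr h2)
  rw [key]
  constructor
  · rintro ⟨h1, h2⟩
    constructor
    · refine (h1.1.union h2.1).subset ?_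
      intro p hp
      rcases lt_or_gt_of_ne (hp : χ p ≠ χ' p) with h | h
      · exact Or.inr h
      · exact Or.inl h
    · intro p hp
      rcases lt_or_gt_of_ne hp with h | h
      · exact ⟨h.ne_top, h2.2 p h⟩
      · exact ⟨h1.2 p h, h.ne_top⟩
  · rintro ⟨h1, h2⟩
    refine ⟨⟨h1.subset ?_, ?_⟩, h1.subset ?_, ?_⟩
    · intro p hp
      exact (ne_of_lt hp).symm
    · intro p hp
      exact (h2 p (ne_of_lt hp).symm).1
    · intro p hp
      exact (ne_of_lt hp)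
    · intro p hp
      exact (h2 p (ne_of_lt hp)).2

/-- The order of types is the usual one: `[χ] ≤ [χ']` iff there are representatives `α` of `[χ]` and
`β` of `[χ']` with `α p ≤ β p` for all primes `p`. -/
theorem type_le_iff (χ χ' : HeightSeq) :
    toAntisymmetrization (· ≤ ·) χ ≤ toAntisymmetrization (· ≤ ·) χ' ↔
      ∃ α β : HeightSeq, toAntisymmetrization (· ≤ ·) α = toAntisymmetrization (· ≤ ·) χ ∧
        toAntisymmetrization (· ≤ ·) β = toAntisymmetrization (· ≤ ·) χ' ∧ ∀ p, α p ≤ β p := by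
  constructor
  · intro h
    rw [toAntisymmetrization_le_toAntisymmetrization_iff] at h
    have key : ∀ p, max (χ p) (χ' p) ≠ χ' p → χ' p < χ p := by
      intro p hp
      by_contra hc
      exact hp (max_eq_right (not_lt.mp hc))
    refine ⟨χ, fun p => max (χ p) (χ' p), rfl, (heightSeq_equiv_iff _ _).mpr ⟨?_, ?_⟩,
      fun p => le_max_left _ _⟩
    · exact h.1.subset fun p hp => key p hp
    · intro p hp
      have h1 := key p hp
      exact ⟨by rw [max_eq_left h1.le]; exact h.2 p h1, h1.ne_top⟩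
  · rintro ⟨α, β, hα, hβ, hαβ⟩
    rw [← hα, ← hβ, toAntisymmetrization_le_toAntisymmetrization_iff]
    constructor
    · convert Set.finite_empty
      ext p
      simpa using hαβ p
    · intro p hp
      exact absurd (hαβ p) (not_le_of_gt hp)

/-! ### The groups of the example -/

/-- The rationals whose denominator is prime to `p`. -/
def zloc (p : Nat.Primes) : Subring ℚ where
  carrier := {r | ¬ (p : ℕ) ∣ r.den}
  zero_mem' := by
    simp only [Set.mem_ofPred_eq, Rat.den_zero]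
    exact Nat.Prime.not_dvd_one p.2
  one_mem' := by
    simp only [Set.mem_ofPred_eq, Rat.den_one]
    exact Nat.Prime.not_dvd_one p.2
  add_mem' := by
    intro a b ha hb h
    rcases (Nat.Prime.dvd_mul p.2).mp (h.trans (Rat.add_den_dvd a b)) with h | h
    · exact ha h
    · exact hb h
  mul_mem' := by
    intro a b ha hb h
    rcases (Nat.Prime.dvd_mul p.2).mp (h.trans (Rat.mul_den_dvd a b)) with h | h
    · exact ha h
    · exact hb h
  neg_mem' := by
    intro a ha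
    simpa using ha

theorem mem_zloc {p : Nat.Primes} {r : ℚ} : r ∈ zloc p ↔ ¬ (p : ℕ) ∣ r.den := Iff.rfl

theorem inv_mem_zloc {q : Nat.Primes} {n : ℕ} (hn : 0 < n) (h : ¬ (q : ℕ) ∣ n) :
    ((n : ℚ))⁻¹ ∈ zloc q := by
  rw [mem_zloc, Rat.inv_natCast_den_of_pos hn]
  exact h

theorem inv_pow_mem_zloc {p q : Nat.Primes} (h : p ≠ q) (n : ℕ) :
    (((p : ℕ) : ℚ) ^ n)⁻¹ ∈ zloc q := by
  have := inv_mem_zloc (q := q) (n := (p : ℕ) ^ n) (pow_pos p.2.pos n) (by
    intro hd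
    have h1 := (Nat.prime_dvd_prime_iff_eq q.2 p.2).mp (Nat.Prime.dvd_of_dvd_pow q.2 hd)
    exact h (Subtype.ext h1.symm))
  simpa using this

theorem eq_zero_of_forall_zloc {p : Nat.Primes} {r : ℚ}
    (h : ∀ n : ℕ, ∃ s ∈ zloc p, ((p : ℕ) : ℚ) ^ n * s = r) : r = 0 := by
  by_contra hr
  have hnum : r.num.natAbs ≠ 0 := by
    rw [Ne, Int.natAbs_eq_zero, Rat.num_eq_zero]
    exact hr
  obtain ⟨s, hs, hsr⟩ := h r.num.natAbs
  set n := r.num.natAbs with hn
  have h1 : (r.num : ℤ) * s.den = (p : ℕ) ^ n * s.num * r.den := by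
    have h2 : (r.num : ℚ) / r.den = ((p : ℕ) : ℚ) ^ n * ((s.num : ℚ) / s.den) := by
      rw [Rat.num_div_den, Rat.num_div_den, hsr]
    have h3 : (r.den : ℚ) ≠ 0 := by exact_mod_cast r.den_nz
    have h4 : (s.den : ℚ) ≠ 0 := by exact_mod_cast s.den_nz
    field_simp at h2
    have h5 : ((r.num * s.den : ℤ) : ℚ) = (((p : ℕ) ^ n * s.num * r.den : ℤ) : ℚ) := by
      push_cast
      linarith
    exact_mod_cast h5
  have h2 : ((p : ℕ) : ℤ) ^ n ∣ r.num * s.den := by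
    rw [h1, mul_assoc]
    exact dvd_mul_right _ _
  have h3 : (p : ℕ) ^ n ∣ n * s.den := by
    have := Int.natAbs_dvd_natAbs.mpr h2
    rw [Int.natAbs_mul, Int.natAbs_pow, Int.natAbs_natCast, Int.natAbs_natCast] at this
    exact this
  have h4 : Nat.Coprime ((p : ℕ) ^ n) s.den :=
    Nat.Coprime.pow_left n ((Nat.Prime.coprime_iff_not_dvd p.2).mpr hs)
  have h5 : (p : ℕ) ^ n ∣ n := h4.dvd_of_dvd_mul_right h3
  have h6 := Nat.le_of_dvd (Nat.pos_of_ne_zero hnum) h5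
  have h7 : n < (p : ℕ) ^ n := Nat.lt_pow_self p.2.one_lt
  omega

/-- The rational vector space in which everything happens. -/
abbrev W : Type := Fin 6 → ℚ

/-- The coordinate functionals. -/
def co (i : Fin 6) : W →ₗ[ℚ] ℚ := LinearMap.proj i

theorem co_apply (i : Fin 6) (v : W) : co i v = v i := rfl

/-- Integrality conditions: the functionals in `conds M p` are required to take `p`-integral values.
The list `M` holds the conditions at `2`. -/
def conds (M : List (W →ₗ[ℚ] ℚ)) : ℕ → List (W →ₗ[ℚ] ℚ)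
  | 2 => M
  | 3 => [co 1, co 3, co 4, co 5]
  | 5 => [co 0, co 2, co 4, co 5]
  | 7 => [co 2, co 3, co 4]
  | 11 => [co 2 + co 5, co 3 + co 5, co 4]
  | 13 => [co 0, co 1, co 5]
  | 17 => [co 0 + co 4, co 1 + co 4, co 5]
  | _ => []

theorem conds_eq_nil (M : List (W →ₗ[ℚ] ℚ)) (n : ℕ) (h2 : n ≠ 2) (h3 : n ≠ 3) (h5 : n ≠ 5)
    (h7 : n ≠ 7) (h11 : n ≠ 11) (h13 : n ≠ 13) (h17 : n ≠ 17) : conds M n = [] := by
  unfold conds
  split <;> first | rfl | omega

/-- The group of all vectors satisfying the integrality conditions. -/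
def grp (M : List (W →ₗ[ℚ] ℚ)) : AddSubgroup W where
  carrier := {v | ∀ p : Nat.Primes, ∀ f ∈ conds M p, f v ∈ zloc p}
  zero_mem' := by
    intro p f _
    rw [map_zero]
    exact (zloc p).zero_mem
  add_mem' := by
    intro a b ha hb p f hf
    rw [map_add]
    exact (zloc p).add_mem (ha p f hf) (hb p f hf)
  neg_mem' := by
    intro a ha p f hf
    rw [map_neg]
    exact (zloc p).neg_mem (ha p f hf)

theorem mem_grp {M : List (W →ₗ[ℚ] ℚ)} {v : W} :
    v ∈ grp M ↔ ∀ p : Nat.Primes, ∀ f ∈ conds M p, f v ∈ zloc p := Iff.rfl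

/-- The vector `v` is killed by all the functionals at `p`. -/
def Dv (M : List (W →ₗ[ℚ] ℚ)) (p : ℕ) (v : W) : Prop := ∀ f ∈ conds M p, f v = 0

theorem height_eq_top_iff {M : List (W →ₗ[ℚ] ℚ)} {v : W} (hv : v ∈ grp M) (p : Nat.Primes) :
    height (grp M) p v = ⊤ ↔ Dv M p v := by
  have hp0 : ((p : ℕ) : ℚ) ≠ 0 := by exact_mod_cast p.2.ne_zero
  constructor
  · intro h f hf
    refine eq_zero_of_forall_zloc (p := p) fun n => ?_
    have h1 : (n : ℕ∞) ≤ height (grp M) p v := by rw [h]; exact le_top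
    rw [natCast_le_height hv] at h1
    obtain ⟨y, hy, hyv⟩ := h1
    refine ⟨f y, hy p f hf, ?_⟩
    rw [← hyv, map_nsmul]
    simp
  · intro h
    rw [← top_le_iff, ← ENat.forall_natCast_le_iff_le]
    intro n _
    rw [natCast_le_height hv]
    refine ⟨(((p : ℕ) : ℚ) ^ n)⁻¹ • v, ?_, ?_⟩
    · intro q f hf
      rw [map_smul, smul_eq_mul]
      by_cases hpq : p = q
      · subst hpq
        rw [h f hf, mul_zero]
        exact (zloc p).zero_mem
      · exact (zloc q).mul_mem (inv_pow_mem_zloc hpq n) (hv q f hf)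
    · rw [← Nat.cast_smul_eq_nsmul ℚ, smul_smul]
      have : ((((p : ℕ) ^ n : ℕ) : ℚ)) * (((p : ℕ) : ℚ) ^ n)⁻¹ = 1 := by
        push_cast
        exact mul_inv_cancel₀ (pow_ne_zero n hp0)
      rw [this, one_smul]

theorem le_typeOf_iff {M : List (W →ₗ[ℚ] ℚ)} {v : W} (hv : v ∈ grp M) (χ : HeightSeq) :
    toAntisymmetrization (· ≤ ·) χ ≤ typeOf (grp M) v ↔
      ∀ p : Nat.Primes, χ p = ⊤ → Dv M p v := by
  unfold typeOf
  rw [toAntisymmetrization_le_toAntisymmetrization_iff]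
  constructor
  · rintro ⟨_, h2⟩ p hp
    rw [← height_eq_top_iff hv]
    by_contra hne
    exact h2 p (by rw [hp]; exact lt_top_iff_ne_top.mpr hne) hp
  · intro h
    constructor
    · have hfin : ({p : Nat.Primes | (p : ℕ) ∈ ({2, 3, 5, 7, 11, 13, 17} : Finset ℕ)}).Finite :=
        Set.Finite.preimage (Subtype.val_injective.injOn) (Finset.finite_toSet _)
      refine hfin.subset ?_
      intro p hp
      have hp' : height (grp M) p v < χ p := hp
      by_contra hc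
      have hc' : (p : ℕ) ∉ ({2, 3, 5, 7, 11, 13, 17} : Finset ℕ) := hc
      simp only [Finset.mem_insert, Finset.mem_singleton, not_or] at hc'
      have h0 := conds_eq_nil M p hc'.1 hc'.2.1 hc'.2.2.1 hc'.2.2.2.1 hc'.2.2.2.2.1
        hc'.2.2.2.2.2.1 hc'.2.2.2.2.2.2
      have h1 : height (grp M) p v = ⊤ := by
        rw [height_eq_top_iff hv]
        intro f hf
        rw [h0] at hf
        simp at hf
      rw [h1] at hp'
      exact not_top_lt hp'
    · intro p hp htop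
      have hp' : height (grp M) p v < χ p := hp
      rw [(height_eq_top_iff hv p).mpr (h p htop)] at hp'
      exact not_top_lt hp'

theorem typeOf_le_typeOf_iff {M : List (W →ₗ[ℚ] ℚ)} {u v : W} (hu : u ∈ grp M) (hv : v ∈ grp M) :
    typeOf (grp M) u ≤ typeOf (grp M) v ↔ ∀ p : Nat.Primes, Dv M p u → Dv M p v := by
  conv_lhs => rw [typeOf]
  rw [le_typeOf_iff hv]
  refine forall_congr' fun p => ?_
  have : heightSeq (grp M) u p = height (grp M) p u := rfl
  rw [this, height_eq_top_iff hu]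

/-- The primes used in the example. -/
def P2 : Nat.Primes := ⟨2, by norm_num⟩
def P3 : Nat.Primes := ⟨3, by norm_num⟩
def P5 : Nat.Primes := ⟨5, by norm_num⟩
def P7 : Nat.Primes := ⟨7, by norm_num⟩
def P11 : Nat.Primes := ⟨11, by norm_num⟩
def P13 : Nat.Primes := ⟨13, by norm_num⟩
def P17 : Nat.Primes := ⟨17, by norm_num⟩

theorem primes_cases (p : Nat.Primes) :
    p = P2 ∨ p = P3 ∨ p = P5 ∨ p = P7 ∨ p = P11 ∨ p = P13 ∨ p = P17 ∨ ∀ M, conds M p = [] := by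
  by_cases h2 : (p : ℕ) = 2
  · exact Or.inl (Subtype.ext h2)
  by_cases h3 : (p : ℕ) = 3
  · exact Or.inr (Or.inl (Subtype.ext h3))
  by_cases h5 : (p : ℕ) = 5
  · exact Or.inr (Or.inr (Or.inl (Subtype.ext h5)))
  by_cases h7 : (p : ℕ) = 7
  · exact Or.inr (Or.inr (Or.inr (Or.inl (Subtype.ext h7))))
  by_cases h11 : (p : ℕ) = 11
  · exact Or.inr (Or.inr (Or.inr (Or.inr (Or.inl (Subtype.ext h11)))))
  by_cases h13 : (p : ℕ) = 13
  · exact Or.inr (Or.inr (Or.inr (Or.inr (Or.inr (Or.inl (Subtype.ext h13))))))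
  by_cases h17 : (p : ℕ) = 17
  · exact Or.inr (Or.inr (Or.inr (Or.inr (Or.inr (Or.inr (Or.inl (Subtype.ext h17)))))))
  · exact Or.inr (Or.inr (Or.inr (Or.inr (Or.inr (Or.inr (Or.inr
      (fun M => conds_eq_nil M p h2 h3 h5 h7 h11 h13 h17)))))))

theorem mem_grp_iff {M : List (W →ₗ[ℚ] ℚ)} {v : W} : v ∈ grp M ↔
    (∀ f ∈ M, f v ∈ zloc P2) ∧
    (v 1 ∈ zloc P3 ∧ v 3 ∈ zloc P3 ∧ v 4 ∈ zloc P3 ∧ v 5 ∈ zloc P3) ∧
    (v 0 ∈ zloc P5 ∧ v 2 ∈ zloc P5 ∧ v 4 ∈ zloc P5 ∧ v 5 ∈ zloc P5) ∧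
    (v 2 ∈ zloc P7 ∧ v 3 ∈ zloc P7 ∧ v 4 ∈ zloc P7) ∧
    (v 2 + v 5 ∈ zloc P11 ∧ v 3 + v 5 ∈ zloc P11 ∧ v 4 ∈ zloc P11) ∧
    (v 0 ∈ zloc P13 ∧ v 1 ∈ zloc P13 ∧ v 5 ∈ zloc P13) ∧
    (v 0 + v 4 ∈ zloc P17 ∧ v 1 + v 4 ∈ zloc P17 ∧ v 5 ∈ zloc P17) := by
  rw [mem_grp]
  constructor
  · intro h
    refine ⟨h P2, ?_, ?_, ?_, ?_, ?_, ?_⟩
    · have := h P3
      simpa [conds, P3, co_apply] using this
    · have := h P5
      simpa [conds, P5, co_apply] using this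
    · have := h P7
      simpa [conds, P7, co_apply] using this
    · have := h P11
      simpa [conds, P11, co_apply] using this
    · have := h P13
      simpa [conds, P13, co_apply] using this
    · have := h P17
      simpa [conds, P17, co_apply] using this
  · rintro ⟨h2, h3, h5, h7, h11, h13, h17⟩ p
    rcases primes_cases p with rfl | rfl | rfl | rfl | rfl | rfl | rfl | hp
    · exact h2
    · simpa [conds, P3, co_apply] using h3
    · simpa [conds, P5, co_apply] using h5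
    · simpa [conds, P7, co_apply] using h7
    · simpa [conds, P11, co_apply] using h11
    · simpa [conds, P13, co_apply] using h13
    · simpa [conds, P17, co_apply] using h17
    · intro f hf
      rw [hp] at hf
      simp at hf

theorem Dv3 {M : List (W →ₗ[ℚ] ℚ)} {v : W} :
    Dv M P3 v ↔ v 1 = 0 ∧ v 3 = 0 ∧ v 4 = 0 ∧ v 5 = 0 := by
  simp [Dv, conds, P3, co_apply]

theorem Dv5 {M : List (W →ₗ[ℚ] ℚ)} {v : W} :
    Dv M P5 v ↔ v 0 = 0 ∧ v 2 = 0 ∧ v 4 = 0 ∧ v 5 = 0 := by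
  simp [Dv, conds, P5, co_apply]

theorem Dv7 {M : List (W →ₗ[ℚ] ℚ)} {v : W} :
    Dv M P7 v ↔ v 2 = 0 ∧ v 3 = 0 ∧ v 4 = 0 := by
  simp [Dv, conds, P7, co_apply]

theorem Dv11 {M : List (W →ₗ[ℚ] ℚ)} {v : W} :
    Dv M P11 v ↔ v 2 + v 5 = 0 ∧ v 3 + v 5 = 0 ∧ v 4 = 0 := by
  simp [Dv, conds, P11, co_apply]

theorem Dv13 {M : List (W →ₗ[ℚ] ℚ)} {v : W} :
    Dv M P13 v ↔ v 0 = 0 ∧ v 1 = 0 ∧ v 5 = 0 := by
  simp [Dv, conds, P13, co_apply]

theorem Dv17 {M : List (W →ₗ[ℚ] ℚ)} {v : W} :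
    Dv M P17 v ↔ v 0 + v 4 = 0 ∧ v 1 + v 4 = 0 ∧ v 5 = 0 := by
  simp [Dv, conds, P17, co_apply]

theorem Dv_nil {M : List (W →ₗ[ℚ] ℚ)} {p : ℕ} {v : W} (hp : conds M p = []) : Dv M p v := by
  intro f hf
  rw [hp] at hf
  simp at hf

theorem Dv_smul {M : List (W →ₗ[ℚ] ℚ)} {p : ℕ} {v : W} {r : ℚ} (hr : r ≠ 0) :
    Dv M p (r • v) ↔ Dv M p v := by
  unfold Dv
  refine forall_congr' fun f => forall_congr' fun _ => ?_
  rw [map_smul, smul_eq_mul, mul_eq_zero]
  exact or_iff_right hr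

/-- The eight special vectors: `a₁, a₂, b₁, b₂, y, w - y, x, k - x`. -/
def g : Fin 8 → W :=
  ![![2, 0, 0, 0, 0, 0], ![0, 2, 0, 0, 0, 0], ![0, 0, 2, 0, 0, 0], ![0, 0, 0, 2, 0, 0],
    ![0, 0, 0, 0, 0, 1], ![0, 0, 1, 1, 0, -1], ![0, 0, 0, 0, 1, 0], ![1, 1, 0, 0, -1, 0]]

theorem g_ne_zero (i : Fin 8) : g i ≠ 0 := by
  intro h
  fin_cases i
  · simpa [g] using congrFun h 0
  · simpa [g] using congrFun h 1
  · simpa [g] using congrFun h 2
  · simpa [g] using congrFun h 3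
  · simpa [g] using congrFun h 5
  · simpa [g] using congrFun h 5
  · simpa [g] using congrFun h 4
  · simpa [g] using congrFun h 4

/-- Hypotheses on the conditions at `2`: only the zero vector is killed by all of them, and the
doubles of the special vectors satisfy them. -/
structure Good (M : List (W →ₗ[ℚ] ℚ)) : Prop where
  ker : ∀ v : W, (∀ f ∈ M, f v = 0) → v = 0
  mem : ∀ i, (2 : ℚ) • g i ∈ grp M

theorem forall_Dv_iff {M : List (W →ₗ[ℚ] ℚ)} (hM : Good M) {u v : W} (hu : u ≠ 0) :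
    (∀ p : Nat.Primes, Dv M p u → Dv M p v) ↔
      (Dv M P3 u → Dv M P3 v) ∧ (Dv M P5 u → Dv M P5 v) ∧ (Dv M P7 u → Dv M P7 v) ∧
      (Dv M P11 u → Dv M P11 v) ∧ (Dv M P13 u → Dv M P13 v) ∧ (Dv M P17 u → Dv M P17 v) := by
  constructor
  · intro h
    exact ⟨h P3, h P5, h P7, h P11, h P13, h P17⟩
  · rintro ⟨h3, h5, h7, h11, h13, h17⟩ p
    rcases primes_cases p with rfl | rfl | rfl | rfl | rfl | rfl | rfl | hp
    · intro h
      exact absurd (hM.ker u h) hu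
    · exact h3
    · exact h5
    · exact h7
    · exact h11
    · exact h13
    · exact h17
    · intro _
      exact Dv_nil (hp M)

/-- The subspace cut out by the type of `g i`. -/
def A : Fin 8 → W → Prop :=
  ![fun v => v 1 = 0 ∧ v 2 = 0 ∧ v 3 = 0 ∧ v 4 = 0 ∧ v 5 = 0,
    fun v => v 0 = 0 ∧ v 2 = 0 ∧ v 3 = 0 ∧ v 4 = 0 ∧ v 5 = 0,
    fun v => v 0 = 0 ∧ v 1 = 0 ∧ v 3 = 0 ∧ v 4 = 0 ∧ v 5 = 0,
    fun v => v 0 = 0 ∧ v 1 = 0 ∧ v 2 = 0 ∧ v 4 = 0 ∧ v 5 = 0,
    fun v => v 2 = 0 ∧ v 3 = 0 ∧ v 4 = 0,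
    fun v => v 2 + v 5 = 0 ∧ v 3 + v 5 = 0 ∧ v 4 = 0,
    fun v => v 0 = 0 ∧ v 1 = 0 ∧ v 5 = 0,
    fun v => v 0 + v 4 = 0 ∧ v 1 + v 4 = 0 ∧ v 5 = 0]

/-- The subspace spanned by the elements of type greater than the type of `g i`. -/
def B : Fin 8 → W → Prop :=
  ![fun v => v 0 = 0 ∧ v 1 = 0 ∧ v 2 = 0 ∧ v 3 = 0 ∧ v 4 = 0 ∧ v 5 = 0,
    fun v => v 0 = 0 ∧ v 1 = 0 ∧ v 2 = 0 ∧ v 3 = 0 ∧ v 4 = 0 ∧ v 5 = 0,
    fun v => v 0 = 0 ∧ v 1 = 0 ∧ v 2 = 0 ∧ v 3 = 0 ∧ v 4 = 0 ∧ v 5 = 0,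
    fun v => v 0 = 0 ∧ v 1 = 0 ∧ v 2 = 0 ∧ v 3 = 0 ∧ v 4 = 0 ∧ v 5 = 0,
    fun v => v 2 = 0 ∧ v 3 = 0 ∧ v 4 = 0 ∧ v 5 = 0,
    fun v => v 2 = 0 ∧ v 3 = 0 ∧ v 4 = 0 ∧ v 5 = 0,
    fun v => v 0 = 0 ∧ v 1 = 0 ∧ v 4 = 0 ∧ v 5 = 0,
    fun v => v 0 = 0 ∧ v 1 = 0 ∧ v 4 = 0 ∧ v 5 = 0]

theorem A_iff {M : List (W →ₗ[ℚ] ℚ)} (hM : Good M) (i : Fin 8) (v : W) :
    (∀ p : Nat.Primes, Dv M p (g i) → Dv M p v) ↔ A i v := by
  rw [forall_Dv_iff hM (g_ne_zero i)]
  simp only [Dv3, Dv5, Dv7, Dv11, Dv13, Dv17]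
  fin_cases i <;> simp [g, A] <;> grind

theorem B_zero (i : Fin 8) : B i 0 := by
  fin_cases i <;> simp [B]

theorem B_add (i : Fin 8) {u v : W} (hu : B i u) (hv : B i v) : B i (u + v) := by
  fin_cases i <;> simp [B] at hu hv ⊢ <;> simp [hu, hv]

theorem B_smul (i : Fin 8) (r : ℚ) {u : W} (hu : B i u) : B i (r • u) := by
  fin_cases i <;> simp [B] at hu ⊢ <;> simp [hu]

theorem A_smul (i : Fin 8) (r : ℚ) {u : W} (hu : A i u) : A i (r • u) := by
  fin_cases i <;> simp [A] at hu ⊢ <;> grind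

theorem A_sub (i : Fin 8) {u v : W} (hu : A i u) (hv : A i v) : A i (u - v) := by
  fin_cases i <;> simp [A] at hu hv ⊢ <;> grind

theorem A_of_B (i : Fin 8) {u : W} (hu : B i u) : A i u := by
  fin_cases i <;> simp [A, B] at hu ⊢ <;> simp [hu]

theorem A_g (i : Fin 8) : A i (g i) := by
  fin_cases i <;> simp [A, g]

theorem not_B_g (i : Fin 8) : ¬ B i (g i) := by
  fin_cases i <;> simp [B, g]

theorem B_of_A {M : List (W →ₗ[ℚ] ℚ)} (hM : Good M) (i : Fin 8) (v : W) (hA : A i v)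
    (hn : ¬ ∀ p : Nat.Primes, Dv M p v → Dv M p (g i)) : B i v := by
  by_contra hB
  apply hn
  have hv : v ≠ 0 := by
    rintro rfl
    exact hB (B_zero i)
  rw [forall_Dv_iff hM hv]
  simp only [Dv3, Dv5, Dv7, Dv11, Dv13, Dv17]
  fin_cases i <;> simp [g, A, B] at hA hB ⊢ <;> grind

/-- The type of the special vector `g i`. -/
noncomputable def tau (M : List (W →ₗ[ℚ] ℚ)) (i : Fin 8) : GType :=
  typeOf (grp M) ((2 : ℚ) • g i)

theorem tau_le_iff {M : List (W →ₗ[ℚ] ℚ)} (hM : Good M) (i : Fin 8) {v : W} (hv : v ∈ grp M) :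
    tau M i ≤ typeOf (grp M) v ↔ A i v := by
  rw [tau, typeOf_le_typeOf_iff (hM.mem i) hv, ← A_iff hM]
  refine forall_congr' fun p => ?_
  rw [Dv_smul two_ne_zero]

theorem typeOf_le_tau_iff {M : List (W →ₗ[ℚ] ℚ)} (hM : Good M) (i : Fin 8) {v : W}
    (hv : v ∈ grp M) :
    typeOf (grp M) v ≤ tau M i ↔ ∀ p : Nat.Primes, Dv M p v → Dv M p (g i) := by
  rw [tau, typeOf_le_typeOf_iff hv (hM.mem i)]
  refine forall_congr' fun p => ?_
  rw [Dv_smul two_ne_zero]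

theorem tau_le_tau_iff {M : List (W →ₗ[ℚ] ℚ)} (hM : Good M) (i j : Fin 8) :
    tau M i ≤ tau M j ↔ A i (g j) := by
  change typeOf (grp M) ((2 : ℚ) • g i) ≤ tau M j ↔ A i (g j)
  rw [typeOf_le_tau_iff hM j (hM.mem i), ← A_iff hM]
  refine forall_congr' fun p => ?_
  rw [Dv_smul two_ne_zero]

theorem tau_inj {M : List (W →ₗ[ℚ] ℚ)} (hM : Good M) {i j : Fin 8} (h : tau M i = tau M j) :
    i = j := by
  have h1 := (tau_le_tau_iff hM i j).mp h.le
  have h2 := (tau_le_tau_iff hM j i).mp h.ge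
  revert h1 h2
  clear h
  fin_cases i <;> fin_cases j <;> simp [A, g]

theorem mem_atLeast_tau {M : List (W →ₗ[ℚ] ℚ)} (hM : Good M) (i : Fin 8) {v : W} :
    v ∈ atLeast (grp M) (tau M i) ↔ v ∈ grp M ∧ A i v := by
  constructor
  · rintro ⟨h1, h2⟩
    exact ⟨h1, (tau_le_iff hM i h1).mp h2⟩
  · rintro ⟨h1, h2⟩
    exact ⟨h1, (tau_le_iff hM i h1).mpr h2⟩

/-- `B i` as a subgroup. -/
def Bgrp (i : Fin 8) : AddSubgroup W where
  carrier := {v | B i v}
  zero_mem' := B_zero i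
  add_mem' := fun hu hv => B_add i hu hv
  neg_mem' := fun {u} hu => by
    have := B_smul i (-1) hu
    simpa using this

theorem star_tau_le {M : List (W →ₗ[ℚ] ℚ)} (hM : Good M) (i : Fin 8) :
    star (grp M) (tau M i) ≤ Bgrp i := by
  refine iSup_le ?_
  rintro ⟨σ, hσ⟩ v ⟨hv, hv'⟩
  have h1 : A i v := (tau_le_iff hM i hv).mp (hσ.le.trans hv')
  refine B_of_A hM i v h1 fun h => ?_
  exact absurd (hv'.trans ((typeOf_le_tau_iff hM i hv).mpr h)) (not_le_of_gt hσ)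

theorem B_of_mem_sharp {M : List (W →ₗ[ℚ] ℚ)} (hM : Good M) (i : Fin 8) {v : W}
    (hv : v ∈ sharp (grp M) (tau M i)) : B i v := by
  obtain ⟨_, n, hn, h⟩ := hv
  have h1 : B i (n • v) := star_tau_le hM i h
  have h2 := B_smul i ((n : ℚ)⁻¹) h1
  rw [← Nat.cast_smul_eq_nsmul ℚ, smul_smul, inv_mul_cancel₀ (by exact_mod_cast hn),
    one_smul] at h2
  exact h2

/-- The rational space spanned by `G^*(τ)`. -/
def sharpQ (M : List (W →ₗ[ℚ] ℚ)) (τ : GType) : Submodule ℚ W where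
  carrier := {x | ∃ n : ℕ, n ≠ 0 ∧ n • x ∈ star (grp M) τ}
  zero_mem' := ⟨1, one_ne_zero, by simp⟩
  add_mem' := by
    rintro x y ⟨m, hm, hm'⟩ ⟨n, hn, hn'⟩
    refine ⟨m * n, mul_ne_zero hm hn, ?_⟩
    rw [nsmul_add]
    refine (star (grp M) τ).add_mem ?_ ?_
    · rw [mul_comm, mul_nsmul']
      exact (star (grp M) τ).nsmul_mem hm' n
    · rw [mul_nsmul']
      exact (star (grp M) τ).nsmul_mem hn' m
  smul_mem' := by
    rintro q x ⟨n, hn, hn'⟩
    refine ⟨n * q.den, mul_ne_zero hn q.den_nz, ?_⟩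
    have h1 : (n * q.den) • (q • x) = q.num • (n • x) := by
      rw [← Nat.cast_smul_eq_nsmul ℚ, ← Nat.cast_smul_eq_nsmul ℚ n, ← Int.cast_smul_eq_zsmul ℚ,
        smul_smul, smul_smul]
      congr 1
      push_cast
      rw [mul_assoc, Rat.den_mul_eq_num, mul_comm]
    rw [h1]
    exact (star (grp M) τ).zsmul_mem hn' _

theorem mem_sharp_iff {M : List (W →ₗ[ℚ] ℚ)} {τ : GType} {v : W} :
    v ∈ sharp (grp M) τ ↔ v ∈ grp M ∧ v ∈ sharpQ M τ := Iff.rfl

theorem g_mem_sharpQ {M : List (W →ₗ[ℚ] ℚ)} (hM : Good M) {τ : GType} {j : Fin 8}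
    (h : τ < tau M j) : g j ∈ sharpQ M τ := by
  refine ⟨2, two_ne_zero, ?_⟩
  have h1 : (2 : ℚ) • g j ∈ atLeast (grp M) (tau M j) := ⟨hM.mem j, le_rfl⟩
  have h2 : (2 : ℕ) • g j = (2 : ℚ) • g j := by
    rw [← Nat.cast_smul_eq_nsmul ℚ]
    norm_num
  rw [h2]
  exact (le_iSup (fun σ : {σ : GType // τ < σ} => atLeast (grp M) σ) ⟨tau M j, h⟩) h1

theorem tau_lt_tau {M : List (W →ₗ[ℚ] ℚ)} (hM : Good M) {i j : Fin 8} (hij : i ≠ j)
    (h : A i (g j)) : tau M i < tau M j :=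
  lt_of_le_of_ne ((tau_le_tau_iff hM i j).mpr h) fun he => hij (tau_inj hM he)

theorem mem_sharp_of_B {M : List (W →ₗ[ℚ] ℚ)} (hM : Good M) (i : Fin 8) {v : W}
    (hv : v ∈ grp M) (hB : B i v) : v ∈ sharp (grp M) (tau M i) := by
  rw [mem_sharp_iff]
  refine ⟨hv, ?_⟩
  have key0 : (v 0 = 0 ∧ v 1 = 0 ∧ v 2 = 0 ∧ v 3 = 0 ∧ v 4 = 0 ∧ v 5 = 0) →
      v ∈ sharpQ M (tau M i) := by
    rintro ⟨h0, h1, h2, h3, h4, h5⟩
    have : v = 0 := by
      ext j
      fin_cases j <;> simp [h0, h1, h2, h3, h4, h5]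
    rw [this]
    exact Submodule.zero_mem _
  have key1 : (v 2 = 0 ∧ v 3 = 0 ∧ v 4 = 0 ∧ v 5 = 0) → tau M i < tau M 0 → tau M i < tau M 1 →
      v ∈ sharpQ M (tau M i) := by
    rintro ⟨h2, h3, h4, h5⟩ ht0 ht1
    have : v = (v 0 / 2) • g 0 + (v 1 / 2) • g 1 := by
      ext j
      fin_cases j <;> simp [g, h2, h3, h4, h5]
    rw [this]
    exact Submodule.add_mem _ (Submodule.smul_mem _ _ (g_mem_sharpQ hM ht0))
      (Submodule.smul_mem _ _ (g_mem_sharpQ hM ht1))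
  have key2 : (v 0 = 0 ∧ v 1 = 0 ∧ v 4 = 0 ∧ v 5 = 0) → tau M i < tau M 2 → tau M i < tau M 3 →
      v ∈ sharpQ M (tau M i) := by
    rintro ⟨h0, h1, h4, h5⟩ ht2 ht3
    have : v = (v 2 / 2) • g 2 + (v 3 / 2) • g 3 := by
      ext j
      fin_cases j <;> simp [g, h0, h1, h4, h5]
    rw [this]
    exact Submodule.add_mem _ (Submodule.smul_mem _ _ (g_mem_sharpQ hM ht2))
      (Submodule.smul_mem _ _ (g_mem_sharpQ hM ht3))
  fin_cases i
  · exact key0 hB
  · exact key0 hB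
  · exact key0 hB
  · exact key0 hB
  · exact key1 hB (tau_lt_tau hM (by decide) (by simp [A, g]))
      (tau_lt_tau hM (by decide) (by simp [A, g]))
  · exact key1 hB (tau_lt_tau hM (by decide) (by simp [A, g]))
      (tau_lt_tau hM (by decide) (by simp [A, g]))
  · exact key2 hB (tau_lt_tau hM (by decide) (by simp [A, g]))
      (tau_lt_tau hM (by decide) (by simp [A, g]))
  · exact key2 hB (tau_lt_tau hM (by decide) (by simp [A, g]))
      (tau_lt_tau hM (by decide) (by simp [A, g]))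

/-- Every vector is a combination of special vectors of at least the same type. -/
theorem exists_coeff {M : List (W →ₗ[ℚ] ℚ)} (hM : Good M) (v : W) :
    ∃ c : Fin 8 → ℚ, v = ∑ j, c j • g j ∧
      ∀ j, c j ≠ 0 → ∀ p : Nat.Primes, Dv M p v → Dv M p (g j) := by
  by_cases hv : v = 0
  · exact ⟨0, by simp [hv], by simp⟩
  simp only [forall_Dv_iff hM hv, Dv3, Dv5, Dv7, Dv11, Dv13, Dv17]
  by_cases h1 : v 4 = 0 ∧ v 5 ≠ 0 ∧ v 2 + v 5 = 0 ∧ v 3 + v 5 = 0
  · obtain ⟨h4, h5, h2, h3⟩ := h1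
    refine ⟨![v 0 / 2, v 1 / 2, 0, 0, 0, -v 5, 0, 0], ?_, ?_⟩
    · ext j
      fin_cases j <;> simp [g, Fin.sum_univ_succ, h4] <;> linarith
    · intro j
      fin_cases j <;> simp [g] <;> grind
  by_cases h2 : v 5 = 0 ∧ v 4 ≠ 0 ∧ v 0 + v 4 = 0 ∧ v 1 + v 4 = 0
  · obtain ⟨h5, h4, h0, h1'⟩ := h2
    refine ⟨![0, 0, v 2 / 2, v 3 / 2, 0, 0, 0, -v 4], ?_, ?_⟩
    · ext j
      fin_cases j <;> simp [g, Fin.sum_univ_succ, h5] <;> linarith
    · intro j
      fin_cases j <;> simp [g] <;> grind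
  · refine ⟨![v 0 / 2, v 1 / 2, v 2 / 2, v 3 / 2, v 5, 0, v 4, 0], ?_, ?_⟩
    · ext j
      fin_cases j <;> simp [g, Fin.sum_univ_succ]
    · intro j
      fin_cases j <;> simp [g] <;> grind

/-- The intersection of `grp M` with the rational line through `v`. -/
def line (M : List (W →ₗ[ℚ] ℚ)) (v : W) : AddSubgroup W where
  carrier := {u | u ∈ grp M ∧ ∃ r : ℚ, u = r • v}
  zero_mem' := ⟨(grp M).zero_mem, 0, by simp⟩
  add_mem' := by
    rintro a b ⟨ha, r, rfl⟩ ⟨hb, s, rfl⟩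
    exact ⟨(grp M).add_mem ha hb, r + s, by rw [add_smul]⟩
  neg_mem' := by
    rintro a ⟨ha, r, rfl⟩
    exact ⟨(grp M).neg_mem ha, -r, by rw [neg_smul]⟩

theorem height_line {M : List (W →ₗ[ℚ] ℚ)} {v x : W} (hx : x ∈ line M v) (p : Nat.Primes) :
    height (line M v) p x = height (grp M) p x := by
  apply le_antisymm
  · rw [← ENat.forall_natCast_le_iff_le]
    intro n hn
    rw [natCast_le_height hx] at hn
    obtain ⟨y, hy, hyx⟩ := hn
    rw [natCast_le_height hx.1]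
    exact ⟨y, hy.1, hyx⟩
  · rw [← ENat.forall_natCast_le_iff_le]
    intro n hn
    rw [natCast_le_height hx.1] at hn
    obtain ⟨y, hy, hyx⟩ := hn
    rw [natCast_le_height hx]
    refine ⟨y, ⟨hy, ?_⟩, hyx⟩
    obtain ⟨r, hr⟩ := hx.2
    refine ⟨(((p : ℕ) ^ n : ℕ) : ℚ)⁻¹ * r, ?_⟩
    rw [mul_smul, ← hr, ← hyx, ← Nat.cast_smul_eq_nsmul ℚ, smul_smul, inv_mul_cancel₀, one_smul]
    exact_mod_cast pow_ne_zero n p.2.ne_zero

theorem typeOf_line {M : List (W →ₗ[ℚ] ℚ)} {v x : W} (hx : x ∈ line M v) :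
    typeOf (line M v) x = typeOf (grp M) x := by
  unfold typeOf
  congr 1
  funext p
  exact height_line hx p

/-- A choice of generators for the complements. -/
structure Choice (M : List (W →ₗ[ℚ] ℚ)) (γ : Fin 8 → W) : Prop where
  mem : ∀ i, A i (γ i)
  not_mem : ∀ i, ¬ B i (γ i)
  split : ∀ i v, v ∈ grp M → A i v → ∃ r : ℚ, r • γ i ∈ grp M ∧ B i (v - r • γ i)

theorem eq_zero_of_smul_B {i : Fin 8} {v : W} (hv : ¬ B i v) {r : ℚ} (h : B i (r • v)) : r = 0 := by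
  by_contra hr
  apply hv
  have := B_smul i r⁻¹ h
  rwa [smul_smul, inv_mul_cancel₀ hr, one_smul] at this

theorem isRankOne_line {M : List (W →ₗ[ℚ] ℚ)} (hM : Good M) {γ : Fin 8 → W} (hγ : Choice M γ)
    (i : Fin 8) : IsRankOneOfType (line M (γ i)) (tau M i) := by
  refine ⟨?_, ?_, ?_⟩
  · intro hbot
    obtain ⟨r, hr, hB⟩ := hγ.split i _ (hM.mem i) (A_smul i 2 (A_g i))
    have h1 : r • γ i ∈ line M (γ i) := ⟨hr, r, rfl⟩
    rw [hbot, AddSubgroup.mem_bot] at h1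
    rw [h1, sub_zero] at hB
    have := eq_zero_of_smul_B (not_B_g i) hB
    norm_num at this
  · rintro x ⟨_, r, rfl⟩ y ⟨_, s, rfl⟩
    by_cases hr : r = 0
    · refine ⟨1, 0, Or.inl one_ne_zero, ?_⟩
      simp [hr]
    · refine ⟨s.num * r.den, r.num * s.den, Or.inr ?_, ?_⟩
      · refine mul_ne_zero (Rat.num_ne_zero.mpr hr) ?_
        exact_mod_cast s.den_nz
      · rw [← Int.cast_smul_eq_zsmul ℚ, ← Int.cast_smul_eq_zsmul ℚ, smul_smul, smul_smul]
        congr 1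
        have h1 : (s.num : ℚ) = s * s.den := (Rat.mul_den_eq_num s).symm
        have h2 : (r.num : ℚ) = r * r.den := (Rat.mul_den_eq_num r).symm
        push_cast
        rw [h1, h2]
        ring
  · intro x hx hx0
    rw [typeOf_line hx]
    obtain ⟨hxG, r, rfl⟩ := hx
    apply le_antisymm
    · rw [typeOf_le_tau_iff hM i hxG]
      by_contra hn
      have h1 := B_of_A hM i _ (A_smul i r (hγ.mem i)) hn
      have h2 := eq_zero_of_smul_B (hγ.not_mem i) h1
      exact hx0 (by rw [h2, zero_smul])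
    · rw [tau_le_iff hM i hxG]
      exact A_smul i r (hγ.mem i)

theorem isHomogeneousCD_of_rankOne {V : Type*} [AddCommGroup V] {C : AddSubgroup V} {τ : GType}
    (h : IsRankOneOfType C τ) : IsHomogeneousCD C τ := by
  refine ⟨1, fun _ => C, fun _ => h, ?_, ?_⟩
  · intro i
    have : ∀ j : Fin 1, j ≠ i → False := fun j hj => hj (Subsingleton.elim _ _)
    have h2 : (⨆ (j : Fin 1) (_ : j ≠ i), C) = ⊥ := by
      rw [iSup_eq_bot]
      intro j
      rw [iSup_eq_bot]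
      intro hj
      exact (this j hj).elim
    rw [h2]
    exact disjoint_bot_right
  · simp

theorem isHomogeneousCD_bot {V : Type*} [AddCommGroup V] (τ : GType) :
    IsHomogeneousCD (⊥ : AddSubgroup V) τ := by
  refine ⟨0, Fin.elim0, fun i => i.elim0, fun i => i.elim0, ?_⟩
  simp

theorem sharp_le_atLeast {M : List (W →ₗ[ℚ] ℚ)} (τ : GType) :
    sharp (grp M) τ ≤ atLeast (grp M) τ := by
  rintro v ⟨hv, n, hn, h⟩
  refine ⟨hv, ?_⟩
  have h1 : star (grp M) τ ≤ atLeast (grp M) τ := by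
    refine iSup_le ?_
    rintro ⟨σ, hσ⟩ u ⟨hu, hu'⟩
    exact ⟨hu, hσ.le.trans hu'⟩
  obtain ⟨h2, h3⟩ := h1 h
  refine h3.trans ?_
  rw [typeOf_le_typeOf_iff h2 hv]
  intro p
  rw [← Nat.cast_smul_eq_nsmul ℚ, Dv_smul (by exact_mod_cast hn)]
  exact id

theorem atLeast_le_sharp {M : List (W →ₗ[ℚ] ℚ)} (hM : Good M) {τ : GType}
    (hτ : ∀ i, tau M i ≠ τ) : atLeast (grp M) τ ≤ sharp (grp M) τ := by
  rintro v ⟨hv, hv'⟩
  rw [mem_sharp_iff]
  refine ⟨hv, ?_⟩
  obtain ⟨c, hc, hc'⟩ := exists_coeff hM v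
  rw [hc]
  refine Submodule.sum_mem _ fun j _ => ?_
  by_cases h0 : c j = 0
  · rw [h0, zero_smul]
    exact Submodule.zero_mem _
  · refine Submodule.smul_mem _ _ (g_mem_sharpQ hM ?_)
    exact lt_of_le_of_ne (hv'.trans ((typeOf_le_tau_iff hM j hv).mpr (hc' j h0))) (hτ j).symm

theorem isRegulating_iSup_line {M : List (W →ₗ[ℚ] ℚ)} (hM : Good M) {γ : Fin 8 → W}
    (hγ : Choice M γ) : IsRegulating (grp M) (⨆ i, line M (γ i)) := by
  refine ⟨fun τ => ⨆ (i : Fin 8) (_ : tau M i = τ), line M (γ i), ?_, ?_⟩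
  · intro τ
    by_cases hτ : ∃ i, tau M i = τ
    · obtain ⟨i, rfl⟩ := hτ
      have h1 : (⨆ (j : Fin 8) (_ : tau M j = tau M i), line M (γ j)) = line M (γ i) := by
        apply le_antisymm
        · refine iSup₂_le fun j hj => ?_
          rw [tau_inj hM hj]
        · exact le_iSup₂_of_le i rfl le_rfl
      simp only [h1]
      refine ⟨isHomogeneousCD_of_rankOne (isRankOne_line hM hγ i), ?_, ?_⟩
      · rw [eq_bot_iff]
        rintro x ⟨⟨_, r, rfl⟩, hx⟩
        have h2 := eq_zero_of_smul_B (hγ.not_mem i) (B_of_mem_sharp hM i hx)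
        rw [AddSubgroup.mem_bot, h2, zero_smul]
      · apply le_antisymm
        · refine sup_le ?_ (sharp_le_atLeast _)
          rintro x ⟨hx, r, rfl⟩
          exact (mem_atLeast_tau hM i).mpr ⟨hx, A_smul i r (hγ.mem i)⟩
        · intro v hv
          obtain ⟨hv1, hv2⟩ := (mem_atLeast_tau hM i).mp hv
          obtain ⟨r, hr, hB⟩ := hγ.split i v hv1 hv2
          have h3 : v = r • γ i + (v - r • γ i) := by abel
          rw [h3]
          refine AddSubgroup.add_mem_sup ⟨hr, r, rfl⟩ ?_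
          exact mem_sharp_of_B hM i ((grp M).sub_mem hv1 hr) hB
    · have hτ' : ∀ i, tau M i ≠ τ := fun i hi => hτ ⟨i, hi⟩
      have h1 : (⨆ (j : Fin 8) (_ : tau M j = τ), line M (γ j)) = ⊥ := by
        rw [iSup_eq_bot]
        intro j
        rw [iSup_eq_bot]
        intro hj
        exact absurd hj (hτ' j)
      simp only [h1]
      refine ⟨isHomogeneousCD_bot τ, bot_inf_eq _, ?_⟩
      rw [bot_sup_eq]
      exact le_antisymm (sharp_le_atLeast _) (atLeast_le_sharp hM hτ')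
  · apply le_antisymm
    · refine iSup_le fun i => ?_
      exact le_iSup_of_le (tau M i) (le_iSup₂_of_le i rfl le_rfl)
    · exact iSup_le fun τ => iSup₂_le fun i _ => le_iSup (fun i => line M (γ i)) i

/-! ### Properties of an arbitrary regulating subgroup -/

theorem le_of_isRegulating {M : List (W →ₗ[ℚ] ℚ)} {U : AddSubgroup W}
    (hU : IsRegulating (grp M) U) : U ≤ grp M := by
  obtain ⟨C, hC, rfl⟩ := hU
  refine iSup_le fun τ => ?_
  have h1 := (hC τ).2.2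
  intro x hx
  have h2 : x ∈ atLeast (grp M) τ := by
    rw [← h1]
    exact AddSubgroup.mem_sup_left hx
  exact h2.1

theorem exists_mem_of_isRegulating {M : List (W →ₗ[ℚ] ℚ)} (hM : Good M) {U : AddSubgroup W}
    (hU : IsRegulating (grp M) U) (i : Fin 8) {v : W} (hv : v ∈ grp M) (hA : A i v) :
    ∃ z ∈ grp M, B i z ∧ v + z ∈ U := by
  obtain ⟨C, hC, rfl⟩ := hU
  have h1 : v ∈ C (tau M i) ⊔ sharp (grp M) (tau M i) := by
    rw [(hC (tau M i)).2.2]
    exact (mem_atLeast_tau hM i).mpr ⟨hv, hA⟩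
  obtain ⟨a, ha, b, hb, hab⟩ := AddSubgroup.mem_sup.mp h1
  refine ⟨-b, (grp M).neg_mem hb.1, ?_, ?_⟩
  · have := B_smul i (-1) (B_of_mem_sharp hM i hb)
    simpa using this
  · have h2 : v + -b = a := by rw [← hab]; abel
    rw [h2]
    exact (le_iSup C (tau M i)) ha

theorem mem_of_isRegulating {M : List (W →ₗ[ℚ] ℚ)} (hM : Good M) {U : AddSubgroup W}
    (hU : IsRegulating (grp M) U) (i : Fin 8) (hi : ∀ z, B i z → z = 0) {v : W} (hv : v ∈ grp M)
    (hA : A i v) : v ∈ U := by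
  obtain ⟨z, _, hz, h⟩ := exists_mem_of_isRegulating hM hU i hv hA
  rw [hi z hz, add_zero] at h
  exact h

/-! ### The two lattices at `2` -/

/-- The conditions at `2` for the group `G` of the example. -/
def M1 : List (W →ₗ[ℚ] ℚ) :=
  [co 0, co 2, co 4, co 5, (1 / 2 : ℚ) • (co 0 - co 1), (1 / 2 : ℚ) • (co 2 - co 3)]

/-- The conditions at `2` for its regulator. -/
def M2 : List (W →ₗ[ℚ] ℚ) :=
  [co 0, (1 / 2 : ℚ) • (co 0 - co 1), (1 / 2 : ℚ) • (co 0 - co 2), (1 / 2 : ℚ) • (co 0 - co 3),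
    (1 / 2 : ℚ) • co 4, (1 / 2 : ℚ) • co 5]

theorem forall_M1 {v : W} : (∀ f ∈ M1, f v ∈ zloc P2) ↔
    v 0 ∈ zloc P2 ∧ v 2 ∈ zloc P2 ∧ v 4 ∈ zloc P2 ∧ v 5 ∈ zloc P2 ∧
      (v 0 - v 1) / 2 ∈ zloc P2 ∧ (v 2 - v 3) / 2 ∈ zloc P2 := by
  simp [M1, co_apply, div_eq_inv_mul]

theorem forall_M2 {v : W} : (∀ f ∈ M2, f v ∈ zloc P2) ↔
    v 0 ∈ zloc P2 ∧ (v 0 - v 1) / 2 ∈ zloc P2 ∧ (v 0 - v 2) / 2 ∈ zloc P2 ∧
      (v 0 - v 3) / 2 ∈ zloc P2 ∧ v 4 / 2 ∈ zloc P2 ∧ v 5 / 2 ∈ zloc P2 := by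
  simp [M2, co_apply, div_eq_inv_mul]

theorem mem_zloc_of_int {p : Nat.Primes} {r : ℚ} (z : ℤ) (h : r = z) : r ∈ zloc p := by
  rw [h]
  exact intCast_mem _ z

theorem good_M1 : Good M1 := by
  constructor
  · intro v hv
    have h : v 0 = 0 ∧ v 2 = 0 ∧ v 4 = 0 ∧ v 5 = 0 ∧ (v 0 - v 1) = 0 ∧ (v 2 - v 3) = 0 := by
      simpa [M1, co_apply] using hv
    obtain ⟨h0, h2, h4, h5, h1, h3⟩ := h
    ext j
    fin_cases j <;> simp <;> linarith
  · intro i
    rw [mem_grp_iff, forall_M1]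
    fin_cases i <;> simp [g] <;> refine ⟨?_, ?_, ?_, ?_⟩ <;>
      first
      | (refine mem_zloc_of_int 4 ?_; norm_num; done)
      | (refine mem_zloc_of_int (-2) ?_; norm_num; done)

theorem good_M2 : Good M2 := by
  constructor
  · intro v hv
    have h : v 0 = 0 ∧ (v 0 - v 1) = 0 ∧ (v 0 - v 2) = 0 ∧ (v 0 - v 3) = 0 ∧ v 4 = 0 ∧ v 5 = 0 := by
      simpa [M2, co_apply] using hv
    obtain ⟨h0, h1, h2, h3, h4, h5⟩ := h
    ext j
    fin_cases j <;> simp <;> linarith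
  · intro i
    rw [mem_grp_iff, forall_M2]
    fin_cases i <;> simp [g] <;> refine ⟨?_, ?_, ?_, ?_⟩ <;>
      first
      | (refine mem_zloc_of_int 4 ?_; norm_num; done)
      | (refine mem_zloc_of_int (-2) ?_; norm_num; done)

/-- The generators of the complements: `y + e₁ k`, `w - y + e₂ k`, `x + e₃ w`, `k - x + e₄ w`. -/
def gam (e1 e2 e3 e4 : ℤ) : Fin 8 → W :=
  ![![2, 0, 0, 0, 0, 0], ![0, 2, 0, 0, 0, 0], ![0, 0, 2, 0, 0, 0], ![0, 0, 0, 2, 0, 0],
    ![e1, e1, 0, 0, 0, 1], ![e2, e2, 1, 1, 0, -1], ![0, 0, e3, e3, 1, 0], ![1, 1, e4, e4, -1, 0]]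

theorem choice_M1 (e1 e2 e3 e4 : ℤ) : Choice M1 (gam e1 e2 e3 e4) := by
  constructor
  · intro i
    fin_cases i <;> simp [A, gam]
  · intro i
    fin_cases i <;> simp [B, gam]
  · intro i v hv hA
    have hv' := hv
    rw [mem_grp_iff, forall_M1] at hv'
    obtain ⟨⟨a0, a2, a4, a5, a01, a23⟩, ⟨b1, b3, b4, b5⟩, ⟨c0, c2, c4, c5⟩, ⟨d2, d3, d4⟩,
      ⟨e2', e3', e4'⟩, ⟨f0, f1, f5⟩, ⟨k0, k1, k5⟩⟩ := hv'
    fin_cases i
    · obtain ⟨h1, h2, h3, h4, h5⟩ : v 1 = 0 ∧ v 2 = 0 ∧ v 3 = 0 ∧ v 4 = 0 ∧ v 5 = 0 := hA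
      refine ⟨v 0 / 2, ?_⟩
      have : (v 0 / 2) • gam e1 e2 e3 e4 0 = v := by
        ext j; fin_cases j <;> simp [gam, h1, h2, h3, h4, h5]
      change (v 0 / 2) • gam e1 e2 e3 e4 0 ∈ grp M1 ∧ B 0 (v - (v 0 / 2) • gam e1 e2 e3 e4 0)
      rw [this, sub_self]
      exact ⟨hv, B_zero 0⟩
    · obtain ⟨h1, h2, h3, h4, h5⟩ : v 0 = 0 ∧ v 2 = 0 ∧ v 3 = 0 ∧ v 4 = 0 ∧ v 5 = 0 := hA
      refine ⟨v 1 / 2, ?_⟩
      have : (v 1 / 2) • gam e1 e2 e3 e4 1 = v := by
        ext j; fin_cases j <;> simp [gam, h1, h2, h3, h4, h5]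
      change (v 1 / 2) • gam e1 e2 e3 e4 1 ∈ grp M1 ∧ B 1 (v - (v 1 / 2) • gam e1 e2 e3 e4 1)
      rw [this, sub_self]
      exact ⟨hv, B_zero 1⟩
    · obtain ⟨h1, h2, h3, h4, h5⟩ : v 0 = 0 ∧ v 1 = 0 ∧ v 3 = 0 ∧ v 4 = 0 ∧ v 5 = 0 := hA
      refine ⟨v 2 / 2, ?_⟩
      have : (v 2 / 2) • gam e1 e2 e3 e4 2 = v := by
        ext j; fin_cases j <;> simp [gam, h1, h2, h3, h4, h5]
      change (v 2 / 2) • gam e1 e2 e3 e4 2 ∈ grp M1 ∧ B 2 (v - (v 2 / 2) • gam e1 e2 e3 e4 2)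
      rw [this, sub_self]
      exact ⟨hv, B_zero 2⟩
    · obtain ⟨h1, h2, h3, h4, h5⟩ : v 0 = 0 ∧ v 1 = 0 ∧ v 2 = 0 ∧ v 4 = 0 ∧ v 5 = 0 := hA
      refine ⟨v 3 / 2, ?_⟩
      have : (v 3 / 2) • gam e1 e2 e3 e4 3 = v := by
        ext j; fin_cases j <;> simp [gam, h1, h2, h3, h4, h5]
      change (v 3 / 2) • gam e1 e2 e3 e4 3 ∈ grp M1 ∧ B 3 (v - (v 3 / 2) • gam e1 e2 e3 e4 3)
      rw [this, sub_self]
      exact ⟨hv, B_zero 3⟩
    · obtain ⟨h2, h3, h4⟩ : v 2 = 0 ∧ v 3 = 0 ∧ v 4 = 0 := hA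
      rw [h2, zero_add] at e2'
      refine ⟨v 5, ?_, ?_⟩
      · rw [mem_grp_iff, forall_M1]
        simp [gam]
        simp only [a5, b5, c5, f5, k5, e2', and_true, true_and]
        refine ⟨?_, ?_, ?_, ?_, ?_⟩ <;> exact Subring.mul_mem _ (by assumption) (intCast_mem _ _)
      · refine ⟨?_, ?_, ?_, ?_⟩ <;> rw [Pi.sub_apply, Pi.smul_apply] <;> simp [gam, h2, h3, h4]
    · obtain ⟨h2, h3, h4⟩ : v 2 + v 5 = 0 ∧ v 3 + v 5 = 0 ∧ v 4 = 0 := hA
      have d5 : v 5 ∈ zloc P7 := by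
        have : v 5 = - v 2 := by linarith
        rw [this]
        exact neg_mem d2
      refine ⟨- v 5, ?_, ?_⟩
      · rw [mem_grp_iff, forall_M1]
        simp [gam]
        simp only [a5, b5, c5, d5, f5, k5, and_true, true_and]
        refine ⟨?_, ?_, ?_, ?_, ?_⟩ <;> exact Subring.mul_mem _ (by assumption) (intCast_mem _ _)
      · refine ⟨?_, ?_, ?_, ?_⟩ <;> rw [Pi.sub_apply, Pi.smul_apply] <;> simp [gam, h2, h3, h4]
    · obtain ⟨h0, h1, h5⟩ : v 0 = 0 ∧ v 1 = 0 ∧ v 5 = 0 := hA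
      rw [h0, zero_add] at k0
      refine ⟨v 4, ?_, ?_⟩
      · rw [mem_grp_iff, forall_M1]
        simp [gam]
        simp only [a4, b4, c4, d4, e4', k0, and_true]
        refine ⟨?_, ?_, ?_, ?_, ?_⟩ <;> exact Subring.mul_mem _ (by assumption) (intCast_mem _ _)
      · refine ⟨?_, ?_, ?_, ?_⟩ <;> rw [Pi.sub_apply, Pi.smul_apply] <;> simp [gam, h0, h1, h5]
    · obtain ⟨h0, h1, h5⟩ : v 0 + v 4 = 0 ∧ v 1 + v 4 = 0 ∧ v 5 = 0 := hA
      have f4 : v 4 ∈ zloc P13 := by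
        have : v 4 = - v 0 := by linarith
        rw [this]
        exact neg_mem f0
      refine ⟨- v 4, ?_, ?_⟩
      · rw [mem_grp_iff, forall_M1]
        simp [gam]
        simp only [a4, b4, c4, d4, e4', f4, and_true, true_and]
        refine ⟨?_, ?_, ?_, ?_, ?_⟩ <;> exact Subring.mul_mem _ (by assumption) (intCast_mem _ _)
      · refine ⟨?_, ?_, ?_, ?_⟩ <;> rw [Pi.sub_apply, Pi.smul_apply] <;> simp [gam, h0, h1, h5]

theorem choice_M2 : Choice M2 (gam 0 0 0 0) := by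
  constructor
  · intro i
    fin_cases i <;> simp [A, gam]
  · intro i
    fin_cases i <;> simp [B, gam]
  · intro i v hv hA
    have hv' := hv
    rw [mem_grp_iff, forall_M2] at hv'
    obtain ⟨⟨a0, a1, a2, a3, a4, a5⟩, ⟨b1, b3, b4, b5⟩, ⟨c0, c2, c4, c5⟩, ⟨d2, d3, d4⟩,
      ⟨e2', e3', e4'⟩, ⟨f0, f1, f5⟩, ⟨k0, k1, k5⟩⟩ := hv'
    fin_cases i
    · obtain ⟨h1, h2, h3, h4, h5⟩ : v 1 = 0 ∧ v 2 = 0 ∧ v 3 = 0 ∧ v 4 = 0 ∧ v 5 = 0 := hA
      refine ⟨v 0 / 2, ?_⟩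
      have : (v 0 / 2) • gam 0 0 0 0 0 = v := by
        ext j; fin_cases j <;> simp [gam, h1, h2, h3, h4, h5]
      change (v 0 / 2) • gam 0 0 0 0 0 ∈ grp M2 ∧ B 0 (v - (v 0 / 2) • gam 0 0 0 0 0)
      rw [this, sub_self]
      exact ⟨hv, B_zero 0⟩
    · obtain ⟨h1, h2, h3, h4, h5⟩ : v 0 = 0 ∧ v 2 = 0 ∧ v 3 = 0 ∧ v 4 = 0 ∧ v 5 = 0 := hA
      refine ⟨v 1 / 2, ?_⟩
      have : (v 1 / 2) • gam 0 0 0 0 1 = v := by
        ext j; fin_cases j <;> simp [gam, h1, h2, h3, h4, h5]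
      change (v 1 / 2) • gam 0 0 0 0 1 ∈ grp M2 ∧ B 1 (v - (v 1 / 2) • gam 0 0 0 0 1)
      rw [this, sub_self]
      exact ⟨hv, B_zero 1⟩
    · obtain ⟨h1, h2, h3, h4, h5⟩ : v 0 = 0 ∧ v 1 = 0 ∧ v 3 = 0 ∧ v 4 = 0 ∧ v 5 = 0 := hA
      refine ⟨v 2 / 2, ?_⟩
      have : (v 2 / 2) • gam 0 0 0 0 2 = v := by
        ext j; fin_cases j <;> simp [gam, h1, h2, h3, h4, h5]
      change (v 2 / 2) • gam 0 0 0 0 2 ∈ grp M2 ∧ B 2 (v - (v 2 / 2) • gam 0 0 0 0 2)
      rw [this, sub_self]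
      exact ⟨hv, B_zero 2⟩
    · obtain ⟨h1, h2, h3, h4, h5⟩ : v 0 = 0 ∧ v 1 = 0 ∧ v 2 = 0 ∧ v 4 = 0 ∧ v 5 = 0 := hA
      refine ⟨v 3 / 2, ?_⟩
      have : (v 3 / 2) • gam 0 0 0 0 3 = v := by
        ext j; fin_cases j <;> simp [gam, h1, h2, h3, h4, h5]
      change (v 3 / 2) • gam 0 0 0 0 3 ∈ grp M2 ∧ B 3 (v - (v 3 / 2) • gam 0 0 0 0 3)
      rw [this, sub_self]
      exact ⟨hv, B_zero 3⟩
    · obtain ⟨h2, h3, h4⟩ : v 2 = 0 ∧ v 3 = 0 ∧ v 4 = 0 := hA
      rw [h2, zero_add] at e2'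
      refine ⟨v 5, ?_, ?_⟩
      · rw [mem_grp_iff, forall_M2]
        simp [gam, a5, b5, c5, f5, k5, e2']
      · refine ⟨?_, ?_, ?_, ?_⟩ <;> rw [Pi.sub_apply, Pi.smul_apply] <;> simp [gam, h2, h3, h4]
    · obtain ⟨h2, h3, h4⟩ : v 2 + v 5 = 0 ∧ v 3 + v 5 = 0 ∧ v 4 = 0 := hA
      have d5 : v 5 ∈ zloc P7 := by
        have : v 5 = - v 2 := by linarith
        rw [this]
        exact neg_mem d2
      refine ⟨- v 5, ?_, ?_⟩
      · rw [mem_grp_iff, forall_M2]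
        simp [gam, a5, b5, c5, d5, f5, k5]
      · refine ⟨?_, ?_, ?_, ?_⟩ <;> rw [Pi.sub_apply, Pi.smul_apply] <;> simp [gam, h2, h3, h4]
    · obtain ⟨h0, h1, h5⟩ : v 0 = 0 ∧ v 1 = 0 ∧ v 5 = 0 := hA
      rw [h0, zero_add] at k0
      refine ⟨v 4, ?_, ?_⟩
      · rw [mem_grp_iff, forall_M2]
        simp [gam, a4, b4, c4, d4, e4', k0]
      · refine ⟨?_, ?_, ?_, ?_⟩ <;> rw [Pi.sub_apply, Pi.smul_apply] <;> simp [gam, h0, h1, h5]
    · obtain ⟨h0, h1, h5⟩ : v 0 + v 4 = 0 ∧ v 1 + v 4 = 0 ∧ v 5 = 0 := hA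
      have f4 : v 4 ∈ zloc P13 := by
        have : v 4 = - v 0 := by linarith
        rw [this]
        exact neg_mem f0
      have a4' : v 4 ∈ zloc P2 := by
        have : v 4 = v 4 / 2 + v 4 / 2 := by ring
        rw [this]
        exact add_mem a4 a4
      refine ⟨- v 4, ?_, ?_⟩
      · rw [mem_grp_iff, forall_M2]
        simp [gam, a4, b4, c4, d4, e4', f4, a4', neg_div]
      · refine ⟨?_, ?_, ?_, ?_⟩ <;> rw [Pi.sub_apply, Pi.smul_apply] <;> simp [gam, h0, h1, h5]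

/-! ### Local-global arguments -/

theorem mem_of_local {U : AddSubgroup W} {v : W}
    (h : ∀ q : Nat.Primes, ∃ n : ℕ, ¬ (q : ℕ) ∣ n ∧ n • v ∈ U) : v ∈ U := by
  classical
  have hex : ∃ d : ℕ, 0 < d ∧ d • v ∈ U := by
    obtain ⟨n, hn, hnv⟩ := h P2
    refine ⟨n, Nat.pos_of_ne_zero ?_, hnv⟩
    rintro rfl
    exact hn (dvd_zero _)
  set d := Nat.find hex with hd
  obtain ⟨hd0, hdv⟩ : 0 < d ∧ d • v ∈ U := Nat.find_spec hex
  have hmin : ∀ m < d, ¬ (0 < m ∧ m • v ∈ U) := fun m hm => Nat.find_min hex hm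
  by_cases h1 : d = 1
  · rw [h1, one_smul] at hdv
    exact hdv
  exfalso
  obtain ⟨q, hq, hqd⟩ := Nat.exists_prime_and_dvd h1
  obtain ⟨n, hn, hnv⟩ := h ⟨q, hq⟩
  have hgpos : 0 < Nat.gcd n d := Nat.gcd_pos_of_pos_right n hd0
  have hgle : Nat.gcd n d < d := by
    refine lt_of_le_of_ne (Nat.gcd_le_right n hd0) fun he => hn ?_
    have : d ∣ n := by
      rw [← he]
      exact Nat.gcd_dvd_left n d
    exact hqd.trans this
  refine hmin _ hgle ⟨hgpos, ?_⟩
  have hb := Nat.gcd_eq_gcd_ab n d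
  have : (Nat.gcd n d) • v = Nat.gcdA n d • (n • v) + Nat.gcdB n d • (d • v) := by
    rw [← natCast_zsmul v (Nat.gcd n d), hb, add_smul, mul_comm, mul_comm (d : ℤ), mul_smul,
      mul_smul, natCast_zsmul, natCast_zsmul]
  rw [this]
  exact U.add_mem (U.zsmul_mem hnv _) (U.zsmul_mem hdv _)

theorem clear_one (q : Nat.Primes) (r : ℚ) :
    ∃ n : ℕ, ¬ (q : ℕ) ∣ n ∧ ∀ p : Nat.Primes, p ≠ q → (n : ℚ) * r ∈ zloc p := by
  refine ⟨ordCompl[(q : ℕ)] r.den, Nat.not_dvd_ordCompl q.2 r.den_nz, ?_⟩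
  intro p hp
  set k := r.den.factorization q with hk
  have h1 : (q : ℕ) ^ k * (ordCompl[(q : ℕ)] r.den) = r.den :=
    Nat.ordProj_mul_ordCompl_eq_self r.den q
  set m := ordCompl[(q : ℕ)] r.den with hm
  have hq0 : ((q : ℕ) : ℚ) ^ k ≠ 0 := pow_ne_zero _ (by exact_mod_cast q.2.ne_zero)
  have h2 : (m : ℚ) * r = r.num * (((q : ℕ) : ℚ) ^ k)⁻¹ := by
    have h3 : r * r.den = r.num := Rat.mul_den_eq_num r
    have h4 : (r.den : ℚ) = ((q : ℕ) : ℚ) ^ k * m := by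
      rw [← h1]
      push_cast
      ring
    rw [h4] at h3
    rw [eq_mul_inv_iff_mul_eq₀ hq0, ← h3]
    ring
  rw [h2]
  exact (zloc p).mul_mem (intCast_mem _ _) (inv_pow_mem_zloc (Ne.symm hp) k)

theorem clear (q : Nat.Primes) (v : W) :
    ∃ n : ℕ, ¬ (q : ℕ) ∣ n ∧ ∀ i, ∀ p : Nat.Primes, p ≠ q → (n • v) i ∈ zloc p := by
  choose n hn hn' using fun i => clear_one q (v i)
  refine ⟨∏ i, n i, ?_, ?_⟩
  · intro h
    obtain ⟨i, _, hi⟩ := (Prime.dvd_finsetProd_iff q.2.prime _).mp h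
    exact hn i hi
  · intro i p hp
    obtain ⟨m, hm⟩ := Finset.dvd_prod_of_mem n (Finset.mem_univ i)
    rw [hm, Pi.smul_apply, nsmul_eq_mul]
    push_cast
    have : (n i : ℚ) * m * v i = m * (n i * v i) := by ring
    rw [this]
    exact (zloc p).mul_mem (natCast_mem _ _) (hn' i p hp)

theorem exists_int {r : ℚ} (h : ∀ p : Nat.Primes, r ∈ zloc p) : ∃ z : ℤ, r = z := by
  have h1 : r.den = 1 := by
    by_contra h1
    obtain ⟨q, hq, hqd⟩ := Nat.exists_prime_and_dvd h1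
    exact h ⟨q, hq⟩ hqd
  refine ⟨r.num, ?_⟩
  rw [← Rat.mul_den_eq_num, h1]
  simp

theorem half_mem_zloc {p : Nat.Primes} (hp : p ≠ P2) {r : ℚ} (hr : r ∈ zloc p) :
    r / 2 ∈ zloc p := by
  have h := inv_pow_mem_zloc (p := P2) (q := p) (Ne.symm hp) 1
  have h2 : (((P2 : ℕ) : ℚ) ^ 1)⁻¹ = 2⁻¹ := by
    simp [P2]
  rw [h2] at h
  rw [div_eq_mul_inv]
  exact (zloc p).mul_mem hr h

theorem mul_two_mem_zloc {p : Nat.Primes} {r : ℚ} (hr : r ∈ zloc p) : r * 2 ∈ zloc p := by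
  rw [mul_two]
  exact (zloc p).add_mem hr hr

theorem grp_M2_le_grp_M1 : grp M2 ≤ grp M1 := by
  intro v hv
  rw [mem_grp_iff, forall_M2] at hv
  rw [mem_grp_iff, forall_M1]
  obtain ⟨⟨a0, a1, a2, a3, a4, a5⟩, h⟩ := hv
  refine ⟨⟨a0, ?_, ?_, ?_, a1, ?_⟩, h⟩
  · have : v 2 = v 0 - (v 0 - v 2) / 2 * 2 := by ring
    rw [this]
    exact sub_mem a0 (mul_two_mem_zloc a2)
  · have : v 4 = v 4 / 2 * 2 := by ring
    rw [this]
    exact mul_two_mem_zloc a4
  · have : v 5 = v 5 / 2 * 2 := by ring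
    rw [this]
    exact mul_two_mem_zloc a5
  · have : (v 2 - v 3) / 2 = (v 0 - v 3) / 2 - (v 0 - v 2) / 2 := by ring
    rw [this]
    exact sub_mem a3 a2

theorem g0_mem {r : ℚ} (h2 : r ∈ zloc P2) (h5 : r ∈ zloc P5) (h13 : r ∈ zloc P13)
    (h17 : r ∈ zloc P17) : r • g 0 ∈ grp M1 := by
  rw [mem_grp_iff, forall_M1]
  simp [g, mul_two_mem_zloc, *]

theorem g1_mem {r : ℚ} (h2 : r ∈ zloc P2) (h3 : r ∈ zloc P3) (h13 : r ∈ zloc P13)
    (h17 : r ∈ zloc P17) : r • g 1 ∈ grp M1 := by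
  rw [mem_grp_iff, forall_M1]
  simp [g, mul_two_mem_zloc, neg_div, *]

theorem g2_mem {r : ℚ} (h2 : r ∈ zloc P2) (h5 : r ∈ zloc P5) (h7 : r ∈ zloc P7)
    (h11 : r ∈ zloc P11) : r • g 2 ∈ grp M1 := by
  rw [mem_grp_iff, forall_M1]
  simp [g, mul_two_mem_zloc, *]

theorem g3_mem {r : ℚ} (h2 : r ∈ zloc P2) (h3 : r ∈ zloc P3) (h7 : r ∈ zloc P7)
    (h11 : r ∈ zloc P11) : r • g 3 ∈ grp M1 := by
  rw [mem_grp_iff, forall_M1]
  simp [g, mul_two_mem_zloc, neg_div, *]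

theorem g4_mem {r : ℚ} (h2 : r ∈ zloc P2) (h3 : r ∈ zloc P3) (h5 : r ∈ zloc P5)
    (h11 : r ∈ zloc P11) (h13 : r ∈ zloc P13) (h17 : r ∈ zloc P17) : r • g 4 ∈ grp M1 := by
  rw [mem_grp_iff, forall_M1]
  simp [g, *]

theorem g5_mem {r : ℚ} (h2 : r ∈ zloc P2) (h3 : r ∈ zloc P3) (h5 : r ∈ zloc P5)
    (h7 : r ∈ zloc P7) (h13 : r ∈ zloc P13) (h17 : r ∈ zloc P17) : r • g 5 ∈ grp M1 := by
  rw [mem_grp_iff, forall_M1]
  simp [g, *]

theorem g6_mem {r : ℚ} (h2 : r ∈ zloc P2) (h3 : r ∈ zloc P3) (h5 : r ∈ zloc P5)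
    (h7 : r ∈ zloc P7) (h11 : r ∈ zloc P11) (h17 : r ∈ zloc P17) : r • g 6 ∈ grp M1 := by
  rw [mem_grp_iff, forall_M1]
  simp [g, *]

theorem g7_mem {r : ℚ} (h2 : r ∈ zloc P2) (h3 : r ∈ zloc P3) (h5 : r ∈ zloc P5)
    (h7 : r ∈ zloc P7) (h11 : r ∈ zloc P11) (h13 : r ∈ zloc P13) : r • g 7 ∈ grp M1 := by
  rw [mem_grp_iff, forall_M1]
  simp [g, *]

theorem eq_zero_of_B {i : Fin 8} (hi : i = 0 ∨ i = 1 ∨ i = 2 ∨ i = 3) {z : W} (h : B i z) :
    z = 0 := by
  rcases hi with rfl | rfl | rfl | rfl <;>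
  · obtain ⟨h0, h1, h2, h3, h4, h5⟩ : z 0 = 0 ∧ z 1 = 0 ∧ z 2 = 0 ∧ z 3 = 0 ∧ z 4 = 0 ∧ z 5 = 0 := h
    ext j
    fin_cases j <;> assumption

/-! ### Every regulating subgroup of `grp M1` contains `grp M2` -/

section Lower

variable {U : AddSubgroup W} (hU : IsRegulating (grp M1) U)

include hU

theorem line_mem {i : Fin 8} (hi : i = 0 ∨ i = 1 ∨ i = 2 ∨ i = 3) {r : ℚ}
    (h : r • g i ∈ grp M1) : r • g i ∈ U :=
  mem_of_isRegulating good_M1 hU i (fun _ hz => eq_zero_of_B hi hz) h (A_smul i r (A_g i))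

theorem two_nsmul_mem_a {z : W} (hz : z ∈ grp M1)
    (h : z 2 = 0 ∧ z 3 = 0 ∧ z 4 = 0 ∧ z 5 = 0) : (2 : ℕ) • z ∈ U := by
  rw [mem_grp_iff, forall_M1] at hz
  obtain ⟨⟨a0, a2, a4, a5, a01, a23⟩, ⟨b1, b3, b4, b5⟩, ⟨c0, c2, c4, c5⟩, ⟨d2, d3, d4⟩,
      ⟨e2, e3, e4⟩, ⟨f0, f1, f5⟩, ⟨k0, k1, k5⟩⟩ := hz
  obtain ⟨h2, h3, h4, h5⟩ := h
  rw [h4, add_zero] at k0 k1
  have a1 : z 1 ∈ zloc P2 := by
    have : z 1 = z 0 - (z 0 - z 1) / 2 * 2 := by ring
    rw [this]
    exact sub_mem a0 (mul_two_mem_zloc a01)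
  have : (2 : ℕ) • z = z 0 • g 0 + z 1 • g 1 := by
    ext j
    fin_cases j <;> simp [g, h2, h3, h4, h5, mul_comm]
  rw [this]
  exact U.add_mem (line_mem hU (by simp) (g0_mem a0 c0 f0 k0))
    (line_mem hU (by simp) (g1_mem a1 b1 f1 k1))

theorem two_nsmul_mem_b {z : W} (hz : z ∈ grp M1)
    (h : z 0 = 0 ∧ z 1 = 0 ∧ z 4 = 0 ∧ z 5 = 0) : (2 : ℕ) • z ∈ U := by
  rw [mem_grp_iff, forall_M1] at hz
  obtain ⟨⟨a0, a2, a4, a5, a01, a23⟩, ⟨b1, b3, b4, b5⟩, ⟨c0, c2, c4, c5⟩, ⟨d2, d3, d4⟩,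
      ⟨e2, e3, e4⟩, ⟨f0, f1, f5⟩, ⟨k0, k1, k5⟩⟩ := hz
  obtain ⟨h0, h1, h4, h5⟩ := h
  rw [h5, add_zero] at e2 e3
  have a3 : z 3 ∈ zloc P2 := by
    have : z 3 = z 2 - (z 2 - z 3) / 2 * 2 := by ring
    rw [this]
    exact sub_mem a2 (mul_two_mem_zloc a23)
  have : (2 : ℕ) • z = z 2 • g 2 + z 3 • g 3 := by
    ext j
    fin_cases j <;> simp [g, h0, h1, h4, h5, mul_comm]
  rw [this]
  exact U.add_mem (line_mem hU (by simp) (g2_mem a2 c2 d2 e2))
    (line_mem hU (by simp) (g3_mem a3 b3 d3 e3))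

theorem double_mem_a {i : Fin 8} (hi : i = 4 ∨ i = 5) {r : ℚ} (h : r • g i ∈ grp M1) :
    (2 : ℕ) • (r • g i) ∈ U := by
  obtain ⟨z, hz, hB, hzU⟩ := exists_mem_of_isRegulating good_M1 hU i h (A_smul i r (A_g i))
  have hB' : z 2 = 0 ∧ z 3 = 0 ∧ z 4 = 0 ∧ z 5 = 0 := by
    rcases hi with rfl | rfl <;> exact hB
  have h1 := two_nsmul_mem_a hU hz hB'
  have h2 : (2 : ℕ) • (r • g i) = (2 : ℕ) • (r • g i + z) - (2 : ℕ) • z := by
    rw [nsmul_add]
    abel
  rw [h2]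
  exact U.sub_mem (U.nsmul_mem hzU 2) h1

theorem double_mem_b {i : Fin 8} (hi : i = 6 ∨ i = 7) {r : ℚ} (h : r • g i ∈ grp M1) :
    (2 : ℕ) • (r • g i) ∈ U := by
  obtain ⟨z, hz, hB, hzU⟩ := exists_mem_of_isRegulating good_M1 hU i h (A_smul i r (A_g i))
  have hB' : z 0 = 0 ∧ z 1 = 0 ∧ z 4 = 0 ∧ z 5 = 0 := by
    rcases hi with rfl | rfl <;> exact hB
  have h1 := two_nsmul_mem_b hU hz hB'
  have h2 : (2 : ℕ) • (r • g i) = (2 : ℕ) • (r • g i + z) - (2 : ℕ) • z := by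
    rw [nsmul_add]
    abel
  rw [h2]
  exact U.sub_mem (U.nsmul_mem hzU 2) h1

/-- Away from `2`, twice a vector lies in the regulating subgroup. -/
theorem two_nsmul_mem {q : Nat.Primes} (hq : q ≠ P2) {u : W} (hu : u ∈ grp M1)
    (hc : ∀ i, ∀ p : Nat.Primes, p ≠ q → u i ∈ zloc p) : (2 : ℕ) • u ∈ U := by
  have hu' := hu
  rw [mem_grp_iff, forall_M1] at hu'
  obtain ⟨⟨a0, a2, a4, a5, a01, a23⟩, ⟨b1, b3, b4, b5⟩, ⟨c0, c2, c4, c5⟩, ⟨d2, d3, d4⟩,
      ⟨e2, e3, e4⟩, ⟨f0, f1, f5⟩, ⟨k0, k1, k5⟩⟩ := hu'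
  have a1 := hc 1 P2 (Ne.symm hq)
  have a3 := hc 3 P2 (Ne.symm hq)
  by_cases h11 : q = P11
  · subst h11
    have n7 : P7 ≠ P11 := by decide
    have n17 : P17 ≠ P11 := by decide
    have hid : (2 : ℕ) • u = u 0 • g 0 + u 1 • g 1 + (u 2 + u 5) • g 2 + (u 3 + u 5) • g 3 +
        (2 : ℕ) • (u 4 • g 6) + (2 : ℕ) • ((- u 5) • g 5) := by
      ext j
      fin_cases j <;> simp [g] <;> ring
    rw [hid]
    refine U.add_mem (U.add_mem (U.add_mem (U.add_mem (U.add_mem ?_ ?_) ?_) ?_) ?_) ?_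
    · exact line_mem hU (by simp) (g0_mem a0 c0 f0 (hc 0 _ n17))
    · exact line_mem hU (by simp) (g1_mem a1 b1 f1 (hc 1 _ n17))
    · exact line_mem hU (by simp) (g2_mem (add_mem a2 a5) (add_mem c2 c5)
        (add_mem d2 (hc 5 _ n7)) e2)
    · exact line_mem hU (by simp) (g3_mem (add_mem a3 a5) (add_mem b3 b5)
        (add_mem d3 (hc 5 _ n7)) e3)
    · exact double_mem_b hU (by simp) (g6_mem a4 b4 c4 d4 e4 (hc 4 _ n17))
    · exact double_mem_a hU (by simp) (g5_mem (neg_mem a5) (neg_mem b5) (neg_mem c5)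
        (neg_mem (hc 5 _ n7)) (neg_mem f5) (neg_mem k5))
  by_cases h17 : q = P17
  · subst h17
    have n11 : P11 ≠ P17 := by decide
    have n13 : P13 ≠ P17 := by decide
    have hid : (2 : ℕ) • u = (u 0 + u 4) • g 0 + (u 1 + u 4) • g 1 + u 2 • g 2 + u 3 • g 3 +
        (2 : ℕ) • (u 5 • g 4) + (2 : ℕ) • ((- u 4) • g 7) := by
      ext j
      fin_cases j <;> simp [g] <;> ring
    rw [hid]
    refine U.add_mem (U.add_mem (U.add_mem (U.add_mem (U.add_mem ?_ ?_) ?_) ?_) ?_) ?_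
    · exact line_mem hU (by simp) (g0_mem (add_mem a0 a4) (add_mem c0 c4)
        (add_mem f0 (hc 4 _ n13)) k0)
    · exact line_mem hU (by simp) (g1_mem (add_mem a1 a4) (add_mem b1 b4)
        (add_mem f1 (hc 4 _ n13)) k1)
    · exact line_mem hU (by simp) (g2_mem a2 c2 d2 (hc 2 _ n11))
    · exact line_mem hU (by simp) (g3_mem a3 b3 d3 (hc 3 _ n11))
    · exact double_mem_a hU (by simp) (g4_mem a5 b5 c5 (hc 5 _ n11) f5 k5)
    · exact double_mem_b hU (by simp) (g7_mem (neg_mem a4) (neg_mem b4) (neg_mem c4)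
        (neg_mem d4) (neg_mem e4) (neg_mem (hc 4 _ n13)))
  · have hid : (2 : ℕ) • u = u 0 • g 0 + u 1 • g 1 + u 2 • g 2 + u 3 • g 3 +
        (2 : ℕ) • (u 5 • g 4) + (2 : ℕ) • (u 4 • g 6) := by
      ext j
      fin_cases j <;> simp [g] <;> ring
    have n11 : P11 ≠ q := Ne.symm h11
    have n17 : P17 ≠ q := Ne.symm h17
    rw [hid]
    refine U.add_mem (U.add_mem (U.add_mem (U.add_mem (U.add_mem ?_ ?_) ?_) ?_) ?_) ?_
    · exact line_mem hU (by simp) (g0_mem a0 c0 f0 (hc 0 _ n17))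
    · exact line_mem hU (by simp) (g1_mem a1 b1 f1 (hc 1 _ n17))
    · exact line_mem hU (by simp) (g2_mem a2 c2 d2 (hc 2 _ n11))
    · exact line_mem hU (by simp) (g3_mem a3 b3 d3 (hc 3 _ n11))
    · exact double_mem_a hU (by simp) (g4_mem a5 b5 c5 (hc 5 _ n11) f5 k5)
    · exact double_mem_b hU (by simp) (g6_mem a4 b4 c4 d4 e4 (hc 4 _ n17))

theorem g_mem_U {i : Fin 8} (hi : i = 0 ∨ i = 1 ∨ i = 2 ∨ i = 3) : g i ∈ U := by
  have h1 : (1 : ℚ) • g i ∈ grp M1 := by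
    rcases hi with rfl | rfl | rfl | rfl
    · exact g0_mem (one_mem _) (one_mem _) (one_mem _) (one_mem _)
    · exact g1_mem (one_mem _) (one_mem _) (one_mem _) (one_mem _)
    · exact g2_mem (one_mem _) (one_mem _) (one_mem _) (one_mem _)
    · exact g3_mem (one_mem _) (one_mem _) (one_mem _) (one_mem _)
  have := line_mem hU hi h1
  rwa [one_smul] at this

theorem mem_or_mem_a {x z : W} (hx : (2 : ℕ) • x ∈ U) (hz : z ∈ grp M1)
    (h : z 2 = 0 ∧ z 3 = 0 ∧ z 4 = 0 ∧ z 5 = 0) (hxz : x + z ∈ U) :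
    x ∈ U ∨ x + ![1, 1, 0, 0, 0, 0] ∈ U := by
  obtain ⟨n, hn, hc⟩ := clear P2 z
  have hnz : n • z ∈ grp M1 := (grp M1).nsmul_mem hz n
  rw [mem_grp_iff, forall_M1] at hnz
  obtain ⟨⟨a0, a2, a4, a5, a01, a23⟩, _⟩ := hnz
  obtain ⟨c, hc0⟩ : ∃ c : ℤ, (n • z) 0 = c := exists_int fun p => by
    by_cases hp : p = P2
    · rw [hp]; exact a0
    · exact hc 0 p hp
  obtain ⟨e, he⟩ : ∃ e : ℤ, ((n • z) 0 - (n • z) 1) / 2 = e := exists_int fun p => by
    by_cases hp : p = P2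
    · rw [hp]; exact a01
    · exact half_mem_zloc hp (sub_mem (hc 0 p hp) (hc 1 p hp))
  have hc1 : (n • z) 1 = c - 2 * e := by
    rw [← hc0, ← he]
    ring
  obtain ⟨h2, h3, h4, h5⟩ := h
  have hn2 : n % 2 = 1 := by
    have : ¬ 2 ∣ n := hn
    omega
  obtain ⟨n', hn'⟩ : ∃ n', n = 2 * n' + 1 := ⟨n / 2, by omega⟩
  have h6 : x + n • z ∈ U := by
    have h7 : n • (x + z) ∈ U := U.nsmul_mem hxz n
    have h10 : n • x = n' • ((2 : ℕ) • x) + x := by
      rw [hn', add_nsmul, one_nsmul, mul_comm, mul_nsmul']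
    have h8 : n • (x + z) = n' • ((2 : ℕ) • x) + (x + n • z) := by
      rw [nsmul_add, h10, add_assoc]
    rw [h8] at h7
    have h9 := U.sub_mem h7 (U.nsmul_mem hx n')
    rwa [add_sub_cancel_left] at h9
  have hz2 : (n • z) 2 = 0 := by simp [h2]
  have hz3 : (n • z) 3 = 0 := by simp [h3]
  have hz4 : (n • z) 4 = 0 := by simp [h4]
  have hz5 : (n • z) 5 = 0 := by simp [h5]
  rcases Int.even_or_odd' c with ⟨d, hd | hd⟩
  · left
    have h7 : n • z = d • g 0 + (d - e) • g 1 := by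
      ext j
      fin_cases j
      · change (n • z) 0 = _
        rw [hc0, hd]; simp [g]; ring
      · change (n • z) 1 = _
        rw [hc1, hd]; simp [g]; ring
      · change (n • z) 2 = _
        rw [hz2]; simp [g]
      · change (n • z) 3 = _
        rw [hz3]; simp [g]
      · change (n • z) 4 = _
        rw [hz4]; simp [g]
      · change (n • z) 5 = _
        rw [hz5]; simp [g]
    have h8 : n • z ∈ U := by
      rw [h7]
      exact U.add_mem (U.zsmul_mem (g_mem_U hU (by simp)) _) (U.zsmul_mem (g_mem_U hU (by simp)) _)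
    have h9 := U.sub_mem h6 h8
    rwa [add_sub_cancel_right] at h9
  · right
    have h7 : n • z = ![1, 1, 0, 0, 0, 0] + (d • g 0 + (d - e) • g 1) := by
      ext j
      fin_cases j
      · change (n • z) 0 = _
        rw [hc0, hd]; simp [g]; ring
      · change (n • z) 1 = _
        rw [hc1, hd]; simp [g]; ring
      · change (n • z) 2 = _
        rw [hz2]; simp [g]
      · change (n • z) 3 = _
        rw [hz3]; simp [g]
      · change (n • z) 4 = _
        rw [hz4]; simp [g]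
      · change (n • z) 5 = _
        rw [hz5]; simp [g]
    have h8 : d • g 0 + (d - e) • g 1 ∈ U :=
      U.add_mem (U.zsmul_mem (g_mem_U hU (by simp)) _) (U.zsmul_mem (g_mem_U hU (by simp)) _)
    rw [h7, ← add_assoc] at h6
    have h9 := U.sub_mem h6 h8
    rwa [add_sub_cancel_right] at h9

theorem mem_or_mem_b {x z : W} (hx : (2 : ℕ) • x ∈ U) (hz : z ∈ grp M1)
    (h : z 0 = 0 ∧ z 1 = 0 ∧ z 4 = 0 ∧ z 5 = 0) (hxz : x + z ∈ U) :
    x ∈ U ∨ x + ![0, 0, 1, 1, 0, 0] ∈ U := by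
  obtain ⟨n, hn, hc⟩ := clear P2 z
  have hnz : n • z ∈ grp M1 := (grp M1).nsmul_mem hz n
  rw [mem_grp_iff, forall_M1] at hnz
  obtain ⟨⟨a0, a2, a4, a5, a01, a23⟩, _⟩ := hnz
  obtain ⟨c, hc0⟩ : ∃ c : ℤ, (n • z) 2 = c := exists_int fun p => by
    by_cases hp : p = P2
    · rw [hp]; exact a2
    · exact hc 2 p hp
  obtain ⟨e, he⟩ : ∃ e : ℤ, ((n • z) 2 - (n • z) 3) / 2 = e := exists_int fun p => by
    by_cases hp : p = P2
    · rw [hp]; exact a23
    · exact half_mem_zloc hp (sub_mem (hc 2 p hp) (hc 3 p hp))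
  have hc1 : (n • z) 3 = c - 2 * e := by
    rw [← hc0, ← he]
    ring
  obtain ⟨h0, h1, h4, h5⟩ := h
  have hn2 : n % 2 = 1 := by
    have : ¬ 2 ∣ n := hn
    omega
  obtain ⟨n', hn'⟩ : ∃ n', n = 2 * n' + 1 := ⟨n / 2, by omega⟩
  have h6 : x + n • z ∈ U := by
    have h7 : n • (x + z) ∈ U := U.nsmul_mem hxz n
    have h10 : n • x = n' • ((2 : ℕ) • x) + x := by
      rw [hn', add_nsmul, one_nsmul, mul_comm, mul_nsmul']
    have h8 : n • (x + z) = n' • ((2 : ℕ) • x) + (x + n • z) := by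
      rw [nsmul_add, h10, add_assoc]
    rw [h8] at h7
    have h9 := U.sub_mem h7 (U.nsmul_mem hx n')
    rwa [add_sub_cancel_left] at h9
  have hz0 : (n • z) 0 = 0 := by simp [h0]
  have hz1 : (n • z) 1 = 0 := by simp [h1]
  have hz4 : (n • z) 4 = 0 := by simp [h4]
  have hz5 : (n • z) 5 = 0 := by simp [h5]
  rcases Int.even_or_odd' c with ⟨d, hd | hd⟩
  · left
    have h7 : n • z = d • g 2 + (d - e) • g 3 := by
      ext j
      fin_cases j
      · change (n • z) 0 = _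
        rw [hz0]; simp [g]
      · change (n • z) 1 = _
        rw [hz1]; simp [g]
      · change (n • z) 2 = _
        rw [hc0, hd]; simp [g]; ring
      · change (n • z) 3 = _
        rw [hc1, hd]; simp [g]; ring
      · change (n • z) 4 = _
        rw [hz4]; simp [g]
      · change (n • z) 5 = _
        rw [hz5]; simp [g]
    have h8 : n • z ∈ U := by
      rw [h7]
      exact U.add_mem (U.zsmul_mem (g_mem_U hU (by simp)) _) (U.zsmul_mem (g_mem_U hU (by simp)) _)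
    have h9 := U.sub_mem h6 h8
    rwa [add_sub_cancel_right] at h9
  · right
    have h7 : n • z = ![0, 0, 1, 1, 0, 0] + (d • g 2 + (d - e) • g 3) := by
      ext j
      fin_cases j
      · change (n • z) 0 = _
        rw [hz0]; simp [g]
      · change (n • z) 1 = _
        rw [hz1]; simp [g]
      · change (n • z) 2 = _
        rw [hc0, hd]; simp [g]; ring
      · change (n • z) 3 = _
        rw [hc1, hd]; simp [g]; ring
      · change (n • z) 4 = _
        rw [hz4]; simp [g]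
      · change (n • z) 5 = _
        rw [hz5]; simp [g]
    have h8 : d • g 2 + (d - e) • g 3 ∈ U :=
      U.add_mem (U.zsmul_mem (g_mem_U hU (by simp)) _) (U.zsmul_mem (g_mem_U hU (by simp)) _)
    rw [h7, ← add_assoc] at h6
    have h9 := U.sub_mem h6 h8
    rwa [add_sub_cancel_right] at h9

/-- The vector `m = k + w` lies in every regulating subgroup. -/
theorem m_mem : (![1, 1, 1, 1, 0, 0] : W) ∈ U := by
  have hg4 : g 4 ∈ grp M1 := by
    have := g4_mem (one_mem _) (one_mem _) (one_mem _) (one_mem _) (one_mem _) (one_mem _)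
    rwa [one_smul] at this
  have hg5 : g 5 ∈ grp M1 := by
    have := g5_mem (one_mem _) (one_mem _) (one_mem _) (one_mem _) (one_mem _) (one_mem _)
    rwa [one_smul] at this
  have hg6 : g 6 ∈ grp M1 := by
    have := g6_mem (one_mem _) (one_mem _) (one_mem _) (one_mem _) (one_mem _) (one_mem _)
    rwa [one_smul] at this
  have hg7 : g 7 ∈ grp M1 := by
    have := g7_mem (one_mem _) (one_mem _) (one_mem _) (one_mem _) (one_mem _) (one_mem _)
    rwa [one_smul] at this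
  obtain ⟨z4, hz4, hB4, hU4⟩ := exists_mem_of_isRegulating good_M1 hU 4 hg4 (A_g 4)
  obtain ⟨z5, hz5, hB5, hU5⟩ := exists_mem_of_isRegulating good_M1 hU 5 hg5 (A_g 5)
  obtain ⟨z6, hz6, hB6, hU6⟩ := exists_mem_of_isRegulating good_M1 hU 6 hg6 (A_g 6)
  obtain ⟨z7, hz7, hB7, hU7⟩ := exists_mem_of_isRegulating good_M1 hU 7 hg7 (A_g 7)
  have hw : (![0, 0, 1, 1, 0, 0] : W) ∈ U ∨
      (![0, 0, 1, 1, 0, 0] : W) + ![1, 1, 0, 0, 0, 0] ∈ U := by
    refine mem_or_mem_a hU (z := z4 + z5) ?_ ((grp M1).add_mem hz4 hz5) (B_add 4 hB4 hB5) ?_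
    · have : (2 : ℕ) • (![0, 0, 1, 1, 0, 0] : W) = g 2 + g 3 := by
        ext j; fin_cases j <;> simp [g]
      rw [this]
      exact U.add_mem (g_mem_U hU (by simp)) (g_mem_U hU (by simp))
    · have : (![0, 0, 1, 1, 0, 0] : W) = g 4 + g 5 := by
        ext j; fin_cases j <;> simp [g]
      rw [this]
      have h2 : g 4 + g 5 + (z4 + z5) = (g 4 + z4) + (g 5 + z5) := by abel
      rw [h2]
      exact U.add_mem hU4 hU5
  have hk : (![1, 1, 0, 0, 0, 0] : W) ∈ U ∨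
      (![1, 1, 0, 0, 0, 0] : W) + ![0, 0, 1, 1, 0, 0] ∈ U := by
    refine mem_or_mem_b hU (z := z6 + z7) ?_ ((grp M1).add_mem hz6 hz7) (B_add 6 hB6 hB7) ?_
    · have : (2 : ℕ) • (![1, 1, 0, 0, 0, 0] : W) = g 0 + g 1 := by
        ext j; fin_cases j <;> simp [g]
      rw [this]
      exact U.add_mem (g_mem_U hU (by simp)) (g_mem_U hU (by simp))
    · have : (![1, 1, 0, 0, 0, 0] : W) = g 6 + g 7 := by
        ext j; fin_cases j <;> simp [g]
      rw [this]
      have h2 : g 6 + g 7 + (z6 + z7) = (g 6 + z6) + (g 7 + z7) := by abel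
      rw [h2]
      exact U.add_mem hU6 hU7
  have hm : (![1, 1, 1, 1, 0, 0] : W) = ![1, 1, 0, 0, 0, 0] + ![0, 0, 1, 1, 0, 0] := by
    ext j; fin_cases j <;> simp
  rw [hm]
  rcases hk with hk | hk
  · rcases hw with hw | hw
    · exact U.add_mem hk hw
    · rwa [add_comm]
  · exact hk

theorem grp_M2_le : grp M2 ≤ U := by
  intro v hv
  refine mem_of_local fun q => ?_
  obtain ⟨n, hn, hc⟩ := clear q v
  by_cases hq : q = P2
  · subst hq
    refine ⟨n, hn, ?_⟩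
    have hu : n • v ∈ grp M2 := (grp M2).nsmul_mem hv n
    set u := n • v with hu_def
    rw [mem_grp_iff, forall_M2] at hu
    obtain ⟨⟨a0, a1, a2, a3, a4, a5⟩, _⟩ := hu
    obtain ⟨c0, h0⟩ : ∃ c : ℤ, u 0 = c := exists_int fun p => by
      by_cases hp : p = P2
      · rw [hp]; exact a0
      · exact hc 0 p hp
    obtain ⟨c1, h1⟩ : ∃ c : ℤ, (u 0 - u 1) / 2 = c := exists_int fun p => by
      by_cases hp : p = P2
      · rw [hp]; exact a1
      · exact half_mem_zloc hp (sub_mem (hc 0 p hp) (hc 1 p hp))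
    obtain ⟨c2, h2⟩ : ∃ c : ℤ, (u 0 - u 2) / 2 = c := exists_int fun p => by
      by_cases hp : p = P2
      · rw [hp]; exact a2
      · exact half_mem_zloc hp (sub_mem (hc 0 p hp) (hc 2 p hp))
    obtain ⟨c3, h3⟩ : ∃ c : ℤ, (u 0 - u 3) / 2 = c := exists_int fun p => by
      by_cases hp : p = P2
      · rw [hp]; exact a3
      · exact half_mem_zloc hp (sub_mem (hc 0 p hp) (hc 3 p hp))
    obtain ⟨c4, h4⟩ : ∃ c : ℤ, u 4 / 2 = c := exists_int fun p => by
      by_cases hp : p = P2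
      · rw [hp]; exact a4
      · exact half_mem_zloc hp (hc 4 p hp)
    obtain ⟨c5, h5⟩ : ∃ c : ℤ, u 5 / 2 = c := exists_int fun p => by
      by_cases hp : p = P2
      · rw [hp]; exact a5
      · exact half_mem_zloc hp (hc 5 p hp)
    have hid : u = c0 • (![1, 1, 1, 1, 0, 0] : W) - c1 • g 1 - c2 • g 2 - c3 • g 3 +
        c4 • ((2 : ℕ) • ((1 : ℚ) • g 6)) + c5 • ((2 : ℕ) • ((1 : ℚ) • g 4)) := by
      ext j
      fin_cases j
      · change u 0 = _
        simp [g]; linarith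
      · change u 1 = _
        simp [g]; linarith
      · change u 2 = _
        simp [g]; linarith
      · change u 3 = _
        simp [g]; linarith
      · change u 4 = _
        simp [g]; linarith
      · change u 5 = _
        simp [g]; linarith
    rw [hid]
    refine U.add_mem (U.add_mem (U.sub_mem (U.sub_mem (U.sub_mem ?_ ?_) ?_) ?_) ?_) ?_
    · exact U.zsmul_mem (m_mem hU) _
    · exact U.zsmul_mem (g_mem_U hU (by simp)) _
    · exact U.zsmul_mem (g_mem_U hU (by simp)) _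
    · exact U.zsmul_mem (g_mem_U hU (by simp)) _
    · exact U.zsmul_mem (double_mem_b hU (by simp) (g6_mem (one_mem _) (one_mem _) (one_mem _)
        (one_mem _) (one_mem _) (one_mem _))) _
    · exact U.zsmul_mem (double_mem_a hU (by simp) (g4_mem (one_mem _) (one_mem _) (one_mem _)
        (one_mem _) (one_mem _) (one_mem _))) _
  · refine ⟨2 * n, ?_, ?_⟩
    · intro hd
      rcases (Nat.Prime.dvd_mul q.2).mp hd with h | h
      · exact hq (Subtype.ext ((Nat.prime_dvd_prime_iff_eq q.2 Nat.prime_two).mp h))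
      · exact hn h
    · rw [mul_nsmul']
      exact two_nsmul_mem hU hq ((grp M1).nsmul_mem (grp_M2_le_grp_M1 hv) n) hc

end Lower

/-! ### Conclusion -/

/-- If a functional is `2`-integral on all the lines `line M (γ i)`, then it is `2`-integral on
the regulating subgroup they generate. -/
theorem functional_mem {M : List (W →ₗ[ℚ] ℚ)} {γ : Fin 8 → W} (φ : W →ₗ[ℚ] ℚ)
    (h : ∀ i (r : ℚ), r • γ i ∈ grp M → φ (r • γ i) ∈ zloc P2) {x : W}
    (hx : x ∈ ⨆ i, line M (γ i)) : φ x ∈ zloc P2 := by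
  have h1 : (⨆ i, line M (γ i)) ≤
      (zloc P2).toAddSubgroup.comap φ.toAddMonoidHom := by
    refine iSup_le fun i => ?_
    rintro y ⟨hy, r, rfl⟩
    exact h i r hy
  exact h1 hx

theorem regulator_grp_M1 : regulator (grp M1) = grp M2 := by
  apply le_antisymm
  · intro x hx
    have hreg : ∀ e1 e2 e3 e4 : ℤ, x ∈ ⨆ i, line M1 (gam e1 e2 e3 e4 i) := by
      intro e1 e2 e3 e4
      exact (sInf_le (isRegulating_iSup_line good_M1 (choice_M1 e1 e2 e3 e4)) :
        regulator (grp M1) ≤ _) hx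
    have hxM : x ∈ grp M1 :=
      le_of_isRegulating (isRegulating_iSup_line good_M1 (choice_M1 0 0 0 0)) (hreg 0 0 0 0)
    have h1 := functional_mem ((1 / 2 : ℚ) • (co 0 - co 2)) (by
      intro i r hr
      rw [mem_grp_iff, forall_M1] at hr
      obtain ⟨⟨a0, a2, a4, a5, a01, a23⟩, _⟩ := hr
      fin_cases i
      · simpa [gam, co_apply, div_eq_inv_mul] using a01
      · simp [gam, co_apply]
      · simpa [gam, co_apply, div_eq_inv_mul] using a23
      · simp [gam, co_apply]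
      · simp [gam, co_apply]
      · simp [gam, co_apply]
      · simp [gam, co_apply]
      · simp [gam, co_apply]) (hreg 0 1 0 1)
    have h2 := functional_mem ((1 / 2 : ℚ) • (co 0 - co 2 - co 5)) (by
      intro i r hr
      rw [mem_grp_iff, forall_M1] at hr
      obtain ⟨⟨a0, a2, a4, a5, a01, a23⟩, _⟩ := hr
      fin_cases i
      · simpa [gam, co_apply, div_eq_inv_mul] using a01
      · simp [gam, co_apply]
      · simpa [gam, co_apply, div_eq_inv_mul] using a23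
      · simp [gam, co_apply]
      · simp [gam, co_apply]
      · simp [gam, co_apply]
      · simp [gam, co_apply]
      · simp [gam, co_apply]) (hreg 1 0 0 1)
    have h3 := functional_mem ((1 / 2 : ℚ) • (co 2 - co 0 - co 4)) (by
      intro i r hr
      rw [mem_grp_iff, forall_M1] at hr
      obtain ⟨⟨a0, a2, a4, a5, a01, a23⟩, _⟩ := hr
      fin_cases i
      · simpa [gam, co_apply, div_eq_inv_mul] using a01
      · simp [gam, co_apply]
      · simpa [gam, co_apply, div_eq_inv_mul] using a23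
      · simp [gam, co_apply]
      · simp [gam, co_apply]
      · simp [gam, co_apply]
      · simp [gam, co_apply]
      · simp [gam, co_apply]) (hreg 0 1 1 0)
    have e1 : (x 0 - x 2) / 2 ∈ zloc P2 := by
      simpa [co_apply, div_eq_inv_mul] using h1
    have e2 : (x 0 - x 2 - x 5) / 2 ∈ zloc P2 := by
      simpa [co_apply, div_eq_inv_mul] using h2
    have e3 : (x 2 - x 0 - x 4) / 2 ∈ zloc P2 := by
      simpa [co_apply, div_eq_inv_mul] using h3
    rw [mem_grp_iff, forall_M1] at hxM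
    obtain ⟨⟨a0, a2, a4, a5, a01, a23⟩, h⟩ := hxM
    rw [mem_grp_iff, forall_M2]
    refine ⟨⟨a0, a01, e1, ?_, ?_, ?_⟩, h⟩
    · have : (x 0 - x 3) / 2 = (x 0 - x 2) / 2 + (x 2 - x 3) / 2 := by ring
      rw [this]
      exact add_mem e1 a23
    · have : x 4 / 2 = -((x 0 - x 2) / 2) - (x 2 - x 0 - x 4) / 2 := by ring
      rw [this]
      exact sub_mem (neg_mem e1) e3
    · have : x 5 / 2 = (x 0 - x 2) / 2 - (x 0 - x 2 - x 5) / 2 := by ring
      rw [this]
      exact sub_mem e1 e2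
  · exact le_sInf fun U hU => grp_M2_le hU

theorem regulator_grp_M2_lt : regulator (grp M2) < grp M2 := by
  have hreg := isRegulating_iSup_line good_M2 choice_M2
  have hle : regulator (grp M2) ≤ ⨆ i, line M2 (gam 0 0 0 0 i) := sInf_le hreg
  refine lt_of_le_of_ne (hle.trans (le_of_isRegulating hreg)) fun he => ?_
  have hm : (![1, 1, 1, 1, 0, 0] : W) ∈ grp M2 := by
    rw [mem_grp_iff, forall_M2]
    simp
  have h1 : (![1, 1, 1, 1, 0, 0] : W) ∈ ⨆ i, line M2 (gam 0 0 0 0 i) := by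
    apply hle
    rw [he]
    exact hm
  have h2 := functional_mem ((1 / 2 : ℚ) • co 0) (by
      intro i r hr
      rw [mem_grp_iff, forall_M2] at hr
      obtain ⟨⟨a0, a1, a2, a3, a4, a5⟩, _⟩ := hr
      fin_cases i
      · simpa [gam, co_apply, div_eq_inv_mul] using a1
      · simp [gam, co_apply]
      · simp [gam, co_apply]
      · simp [gam, co_apply]
      · simp [gam, co_apply]
      · simp [gam, co_apply]
      · simp [gam, co_apply]
      · simpa [gam, co_apply, div_eq_inv_mul] using a2) h1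
  have h3 : (2 : ℚ)⁻¹ ∈ zloc P2 := by
    simpa [co_apply] using h2
  rw [mem_zloc] at h3
  apply h3
  have h4 : (2 : ℚ)⁻¹.den = 2 := by norm_num
  rw [h4]
  exact dvd_rfl

/-- The list of all integrality conditions. -/
def allConds (M : List (W →ₗ[ℚ] ℚ)) : List (Nat.Primes × (W →ₗ[ℚ] ℚ)) :=
  M.map (fun f => (P2, f)) ++ (conds M 3).map (fun f => (P3, f)) ++
    (conds M 5).map (fun f => (P5, f)) ++ (conds M 7).map (fun f => (P7, f)) ++
    (conds M 11).map (fun f => (P11, f)) ++ (conds M 13).map (fun f => (P13, f)) ++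
    (conds M 17).map (fun f => (P17, f))

theorem mem_grp_iff_allConds {M : List (W →ₗ[ℚ] ℚ)} {v : W} :
    v ∈ grp M ↔ ∀ x ∈ allConds M, x.2 v ∈ zloc x.1 := by
  rw [mem_grp]
  constructor
  · intro h x hx
    simp only [allConds, List.mem_append, List.mem_map] at hx
    rcases hx with (((((⟨f, hf, rfl⟩ | ⟨f, hf, rfl⟩) | ⟨f, hf, rfl⟩) | ⟨f, hf, rfl⟩) |
      ⟨f, hf, rfl⟩) | ⟨f, hf, rfl⟩) | ⟨f, hf, rfl⟩
    · exact h P2 f hf
    · exact h P3 f hf
    · exact h P5 f hf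
    · exact h P7 f hf
    · exact h P11 f hf
    · exact h P13 f hf
    · exact h P17 f hf
  · intro h p f hf
    rcases primes_cases p with rfl | rfl | rfl | rfl | rfl | rfl | rfl | hp
    · exact h (P2, f) (by
        simp only [allConds, List.mem_append, List.mem_map]
        exact Or.inl (Or.inl (Or.inl (Or.inl (Or.inl (Or.inl ⟨f, hf, rfl⟩))))))
    · exact h (P3, f) (by
        simp only [allConds, List.mem_append, List.mem_map]
        exact Or.inl (Or.inl (Or.inl (Or.inl (Or.inl (Or.inr ⟨f, hf, rfl⟩))))))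
    · exact h (P5, f) (by
        simp only [allConds, List.mem_append, List.mem_map]
        exact Or.inl (Or.inl (Or.inl (Or.inl (Or.inr ⟨f, hf, rfl⟩)))))
    · exact h (P7, f) (by
        simp only [allConds, List.mem_append, List.mem_map]
        exact Or.inl (Or.inl (Or.inl (Or.inr ⟨f, hf, rfl⟩))))
    · exact h (P11, f) (by
        simp only [allConds, List.mem_append, List.mem_map]
        exact Or.inl (Or.inl (Or.inr ⟨f, hf, rfl⟩)))
    · exact h (P13, f) (by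
        simp only [allConds, List.mem_append, List.mem_map]
        exact Or.inl (Or.inr ⟨f, hf, rfl⟩))
    · exact h (P17, f) (by
        simp only [allConds, List.mem_append, List.mem_map]
        exact Or.inr ⟨f, hf, rfl⟩)
    · rw [hp] at hf
      simp at hf

theorem isButler_grp {M : List (W →ₗ[ℚ] ℚ)} (hM : Good M) : IsButler (grp M) := by
  refine ⟨(allConds M).length, fun j => (zloc ((allConds M).get j).1).toAddSubgroup,
    { toFun := fun v j => ((allConds M).get j).2 v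
      map_zero' := by
        funext j
        simp
      map_add' := fun u v => by
        funext j
        simp }, ?_, ?_, ?_, ?_⟩
  · intro j hbot
    have h1 : (1 : ℚ) ∈ (zloc ((allConds M).get j).1).toAddSubgroup := one_mem (zloc _)
    have hbot' : (zloc ((allConds M).get j).1).toAddSubgroup = ⊥ := hbot
    rw [hbot', AddSubgroup.mem_bot] at h1
    exact one_ne_zero h1
  · rw [injective_iff_map_eq_zero]
    intro v hv
    apply Subtype.ext
    apply hM.ker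
    intro f hf
    have hmem : (P2, f) ∈ allConds M := by
      simp only [allConds, List.mem_append, List.mem_map]
      exact Or.inl (Or.inl (Or.inl (Or.inl (Or.inl (Or.inl ⟨f, hf, rfl⟩)))))
    obtain ⟨j, hj⟩ := List.get_of_mem hmem
    have h1 := congrFun hv j
    have h2 : ((allConds M).get j).2 (v : W) = 0 := h1
    rw [hj] at h2
    exact h2
  · intro v j
    exact mem_grp_iff_allConds.mp v.2 _ (List.get_mem _ _)
  · rintro k x hk hx ⟨v, hv⟩
    have hk' : (k : ℚ) ≠ 0 := by exact_mod_cast hk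
    have key : ∀ j, ((allConds M).get j).2 ((k : ℚ)⁻¹ • (v : W)) = x j := by
      intro j
      have h1 : ((allConds M).get j).2 (v : W) = k • x j := congrFun hv j
      rw [map_smul, h1, ← Int.cast_smul_eq_zsmul ℚ, smul_eq_mul, smul_eq_mul, ← mul_assoc,
        inv_mul_cancel₀ hk', one_mul]
    refine ⟨⟨(k : ℚ)⁻¹ • (v : W), ?_⟩, ?_⟩
    · rw [mem_grp_iff_allConds]
      intro y hy
      obtain ⟨j, hj⟩ := List.get_of_mem hy
      have h1 := key j
      rw [hj] at h1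
      rw [h1]
      have h2 : x j ∈ (zloc ((allConds M).get j).1).toAddSubgroup := hx j
      rw [hj] at h2
      exact h2
    · funext j
      exact key j

/-- There is a Butler group `G` (a subgroup of `ℚ ^ 6`) whose regulator `R(G)` satisfies
`R(R(G)) < R(G)`. -/
theorem result : ∃ G : AddSubgroup (Fin 6 → ℚ),
    IsButler G ∧ regulator (regulator G) < regulator G := by
  refine ⟨grp M1, isButler_grp good_M1, ?_⟩
  rw [regulator_grp_M1]
  exact regulator_grp_M2_lt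

end Pool.Agent.Results.MP_9f65ab_al.RegulatorDisproof
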